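import Mathlib
set_option autoImplicit false

/-! Dyadic decomposition of the Bochner-Riesz symbol. -/

namespace Pool.Agent.W773.BRA

open Set Filter
open scoped Topology ContDiff

/-- smooth cutoff: `1` for `t ≤ 1`, `0` for `2 ≤ t` -/
noncomputable def chi (t : ℝ) : ℝ := Real.smoothTransition (2 - t)

lemma chi_one {t : ℝ} (h : t ≤ 1) : chi t = 1 :=
  Real.smoothTransition.one_of_one_le (by linarith)

lemma chi_zero {t : ℝ} (h : 2 ≤ t) : chi t = 0 :=
  Real.smoothTransition.zero_of_nonpos (by linarith)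

lemma chi_nonneg (t : ℝ) : 0 ≤ chi t := Real.smoothTransition.nonneg _

lemma chi_le_one (t : ℝ) : chi t ≤ 1 := Real.smoothTransition.le_one _

lemma chi_contDiff : ContDiff ℝ ∞ chi :=
  Real.smoothTransition.contDiff.comp (contDiff_const.sub contDiff_id)

/-- bump supported in `[1/2, 2]` -/
noncomputable def psi (δ : ℝ) (s : ℝ) : ℝ := s ^ δ * (chi s - chi (2 * s))

lemma psi_eq_zero_left {δ s : ℝ} (h : s ≤ 1 / 2) : psi δ s = 0 := by
  unfold psi
  rw [chi_one (by linarith), chi_one (by linarith)]; ring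

lemma psi_eq_zero_right {δ s : ℝ} (h : 2 ≤ s) : psi δ s = 0 := by
  unfold psi
  rw [chi_zero h, chi_zero (by linarith)]; ring

lemma psi_contDiff (δ : ℝ) : ContDiff ℝ ∞ (psi δ) := by
  rw [contDiff_iff_contDiffAt]
  intro s
  rcases lt_or_ge s (1 / 2) with h | h
  · have : psi δ =ᶠ[𝓝 s] fun _ => (0 : ℝ) := by
      filter_upwards [gt_mem_nhds h] with x hx
      exact psi_eq_zero_left (le_of_lt hx)
    exact contDiffAt_const.congr_of_eventuallyEq this
  · have hs : s ≠ 0 := by linarith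
    have h1 : ContDiffAt ℝ ∞ (fun x : ℝ => x ^ δ) s := Real.contDiffAt_rpow_const_of_ne hs
    have h2 : ContDiffAt ℝ ∞ (fun x : ℝ => chi x - chi (2 * x)) s :=
      (chi_contDiff.sub (chi_contDiff.comp (contDiff_const.mul contDiff_id))).contDiffAt
    exact h1.mul h2

/-- the partial sums of the decomposition -/
lemma sum_psi {δ : ℝ} (hδ : 0 < δ) {t : ℝ} (ht : t ≤ 1) (K : ℕ) :
    ∑ k ∈ Finset.range K, (2 : ℝ) ^ (-(k : ℝ) * δ) * psi δ (2 ^ k * t) =
      (max t 0) ^ δ * (1 - chi (2 ^ K * t)) := by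
  rcases le_or_gt t 0 with h | h
  · rw [max_eq_right h, Real.zero_rpow hδ.ne', zero_mul]
    apply Finset.sum_eq_zero
    intro k _
    rw [psi_eq_zero_left, mul_zero]
    have : (2 : ℝ) ^ k * t ≤ 0 := mul_nonpos_of_nonneg_of_nonpos (by positivity) h
    linarith
  · rw [max_eq_left h.le]
    have e : ∀ k : ℕ, (2 : ℝ) ^ (-(k : ℝ) * δ) * psi δ (2 ^ k * t) =
        t ^ δ * (chi (2 ^ k * t) - chi (2 ^ (k + 1) * t)) := by
      intro k
      unfold psi
      have h1 : ((2 : ℝ) ^ k * t) ^ δ = (2 : ℝ) ^ ((k : ℝ) * δ) * t ^ δ := by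
        rw [Real.mul_rpow (by positivity) h.le, ← Real.rpow_natCast, ← Real.rpow_mul (by norm_num)]
      have h2 : (2 : ℝ) ^ (-(k : ℝ) * δ) * (2 : ℝ) ^ ((k : ℝ) * δ) = 1 := by
        rw [← Real.rpow_add (by norm_num)]; simp
      rw [h1, show (2 : ℝ) * (2 ^ k * t) = 2 ^ (k + 1) * t by ring]
      calc (2 : ℝ) ^ (-(k : ℝ) * δ) * ((2 : ℝ) ^ ((k : ℝ) * δ) * t ^ δ *
            (chi (2 ^ k * t) - chi (2 ^ (k + 1) * t)))
          = ((2 : ℝ) ^ (-(k : ℝ) * δ) * (2 : ℝ) ^ ((k : ℝ) * δ)) * (t ^ δ *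
            (chi (2 ^ k * t) - chi (2 ^ (k + 1) * t))) := by ring
        _ = _ := by rw [h2, one_mul]
    rw [Finset.sum_congr rfl fun k _ => e k, ← Finset.mul_sum]
    congr 1
    rw [Finset.sum_range_sub' (fun k => chi (2 ^ k * t))]
    simp [chi_one ht]

lemma sum_psi_tail {δ : ℝ} (hδ : 0 < δ) {t : ℝ} (ht : t ≤ 1) (K : ℕ) :
    |(max t 0) ^ δ - ∑ k ∈ Finset.range K, (2 : ℝ) ^ (-(k : ℝ) * δ) * psi δ (2 ^ k * t)| ≤
      (2 * (1 / 2 : ℝ) ^ K) ^ δ := by
  rw [sum_psi hδ ht]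
  have e : (max t 0) ^ δ - (max t 0) ^ δ * (1 - chi (2 ^ K * t)) = (max t 0) ^ δ * chi (2 ^ K * t) := by
    ring
  rw [e]
  have h0 : 0 ≤ (max t 0) ^ δ := Real.rpow_nonneg (le_max_right _ _) _
  rw [abs_of_nonneg (mul_nonneg h0 (chi_nonneg _))]
  rcases le_or_gt 2 (2 ^ K * t) with h | h
  · rw [chi_zero h, mul_zero]; positivity
  · have h1 : max t 0 ≤ 2 * (1 / 2 : ℝ) ^ K := by
      apply max_le _ (by positivity)
      have h2 : (0 : ℝ) < 2 ^ K := by positivity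
      have h3 : (1 / 2 : ℝ) ^ K = 1 / 2 ^ K := by rw [div_pow, one_pow]
      rw [h3, mul_one_div, le_div_iff₀ h2]
      nlinarith
    calc (max t 0) ^ δ * chi (2 ^ K * t) ≤ (max t 0) ^ δ * 1 :=
          mul_le_mul_of_nonneg_left (chi_le_one _) h0
      _ = (max t 0) ^ δ := mul_one _
      _ ≤ _ := Real.rpow_le_rpow (le_max_right _ _) h1 hδ.le

end Pool.Agent.W773.BRA
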