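import Pool.Agent.W773.BRA.A
set_option autoImplicit false

/-! Annular multipliers, their Laplacians and weighted Fourier transforms. -/

namespace Pool.Agent.W773.BRA

open Set Filter MeasureTheory SchwartzMap
open scoped Topology ContDiff FourierTransform LineDeriv Laplacian

/-- Euclidean space -/
abbrev E (n : ℕ) := EuclideanSpace ℝ (Fin n)

variable {n : ℕ}

/-- smooth function supported in `[1/2, 2]` -/
def Bmp (h : ℝ → ℝ) : Prop := ContDiff ℝ ∞ h ∧ ∀ u, u ∉ Icc (1 / 2 : ℝ) 2 → h u = 0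

lemma psi_bmp (δ : ℝ) : Bmp (psi δ) := by
  refine ⟨psi_contDiff δ, fun u hu => ?_⟩
  rw [mem_Icc, not_and_or, not_le, not_le] at hu
  rcases hu with hu | hu
  · exact psi_eq_zero_left hu.le
  · exact psi_eq_zero_right hu.le

/-- annular multiplier -/
noncomputable def prof (h : ℝ → ℝ) (N R : ℝ) (ξ : E n) : ℂ :=
  ((h (N * (1 - ‖ξ‖ ^ 2 / R ^ 2)) : ℝ) : ℂ)

lemma prof_contDiff {h : ℝ → ℝ} (hh : ContDiff ℝ ∞ h) (N R : ℝ) :
    ContDiff ℝ ∞ (prof h N R : E n → ℂ) := by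
  have h1 : ContDiff ℝ ∞ (fun ξ : E n => N * (1 - ‖ξ‖ ^ 2 / R ^ 2)) :=
    contDiff_const.mul (contDiff_const.sub ((contDiff_norm_sq ℝ).div_const _))
  exact Complex.ofRealCLM.contDiff.comp (hh.comp h1)

lemma prof_ne {h : ℝ → ℝ} (hh : Bmp h) {N R : ℝ} {ξ : E n} (hx : prof h N R ξ ≠ 0) :
    1 / 2 ≤ N * (1 - ‖ξ‖ ^ 2 / R ^ 2) ∧ N * (1 - ‖ξ‖ ^ 2 / R ^ 2) ≤ 2 := by
  by_contra hcon
  apply hx
  unfold prof
  rw [hh.2 _ (fun hm => hcon hm)]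
  simp

lemma prof_norm_le {h : ℝ → ℝ} (hh : Bmp h) {N R : ℝ} (hN : 0 < N) (hR : 0 < R) {ξ : E n}
    (hx : prof h N R ξ ≠ 0) : ‖ξ‖ ≤ R := by
  have h1 := (prof_ne hh hx).1
  have h2 : 0 < 1 - ‖ξ‖ ^ 2 / R ^ 2 := by
    by_contra hcon
    rw [not_lt] at hcon
    nlinarith
  have h3 : ‖ξ‖ ^ 2 / R ^ 2 < 1 := by linarith
  rw [div_lt_one (by positivity)] at h3
  exact le_of_lt (lt_of_pow_lt_pow_left₀ 2 hR.le h3)

lemma prof_compact {h : ℝ → ℝ} (hh : Bmp h) {N R : ℝ} (hN : 0 < N) (hR : 0 < R) :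
    HasCompactSupport (prof h N R : E n → ℂ) := by
  apply HasCompactSupport.of_support_subset_isCompact (isCompact_closedBall (0 : E n) R)
  intro ξ hξ
  rw [mem_closedBall_zero_iff]
  exact prof_norm_le hh hN hR hξ

/-- annular multiplier as a Schwartz function -/
noncomputable def Sp {h : ℝ → ℝ} (hh : Bmp h) {N R : ℝ} (hN : 0 < N) (hR : 0 < R) : 𝓢(E n, ℂ) :=
  (prof_compact hh hN hR).toSchwartzMap (prof_contDiff hh.1 N R)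

lemma Sp_apply {h : ℝ → ℝ} (hh : Bmp h) {N R : ℝ} (hN : 0 < N) (hR : 0 < R) (ξ : E n) :
    Sp hh hN hR ξ = prof h N R ξ := rfl

lemma hasDerivAt_line {h : ℝ → ℝ} (hh : ContDiff ℝ ∞ h) (N R : ℝ) (ξ m : E n) :
    HasDerivAt (fun t : ℝ => h (N * (1 - ‖ξ + t • m‖ ^ 2 / R ^ 2)))
      (deriv h (N * (1 - ‖ξ‖ ^ 2 / R ^ 2)) * (-(2 * N / R ^ 2) * inner ℝ ξ m)) 0 := by
  have h1 : HasDerivAt (fun t : ℝ => ξ + t • m) m 0 := by
    simpa using ((hasDerivAt_id (0 : ℝ)).smul_const m).const_add ξ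
  have h2 := h1.norm_sq
  have h3 : HasDerivAt (fun t : ℝ => N * (1 - ‖ξ + t • m‖ ^ 2 / R ^ 2))
      (-(2 * N / R ^ 2) * inner ℝ ξ m) 0 := by
    have h4 := ((h2.div_const (R ^ 2)).const_sub 1).const_mul N
    refine h4.congr_deriv ?_
    simp only [zero_smul, add_zero]
    ring
  have h5 : HasDerivAt h (deriv h (N * (1 - ‖ξ‖ ^ 2 / R ^ 2))) (N * (1 - ‖ξ + (0 : ℝ) • m‖ ^ 2 / R ^ 2)) := by
    rw [zero_smul, add_zero]
    exact (hh.differentiable (by simp)).differentiableAt.hasDerivAt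
  exact h5.comp 0 h3

lemma line1 {h : ℝ → ℝ} (hh : Bmp h) {N R : ℝ} (hN : 0 < N) (hR : 0 < R) (m ξ : E n) :
    (∂_{m} (Sp (n := n) hh hN hR) : 𝓢(E n, ℂ)) ξ =
      ((deriv h (N * (1 - ‖ξ‖ ^ 2 / R ^ 2)) * (-(2 * N / R ^ 2) * inner ℝ ξ m) : ℝ) : ℂ) := by
  rw [lineDerivOp_apply]
  have h1 := (hasDerivAt_line hh.1 N R ξ m).ofReal_comp
  exact h1.deriv

lemma line2 {h : ℝ → ℝ} (hh : Bmp h) {N R : ℝ} (hN : 0 < N) (hR : 0 < R) (m ξ : E n) :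
    (∂_{m} (∂_{m} (Sp (n := n) hh hN hR) : 𝓢(E n, ℂ)) : 𝓢(E n, ℂ)) ξ =
      ((deriv (deriv h) (N * (1 - ‖ξ‖ ^ 2 / R ^ 2)) * ((2 * N / R ^ 2) ^ 2 * (inner ℝ ξ m) ^ 2)
        - 2 * N / R ^ 2 * ‖m‖ ^ 2 * deriv h (N * (1 - ‖ξ‖ ^ 2 / R ^ 2)) : ℝ) : ℂ) := by
  rw [lineDerivOp_apply]
  have hd : ContDiff ℝ ∞ (deriv h) := (contDiff_infty_iff_deriv.1 hh.1).2
  have h1 := hasDerivAt_line hd N R ξ m
  have h2 : HasDerivAt (fun t : ℝ => -(2 * N / R ^ 2) * inner ℝ (ξ + t • m) m)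
      (-(2 * N / R ^ 2) * ‖m‖ ^ 2) 0 := by
    have h3 : (fun t : ℝ => -(2 * N / R ^ 2) * inner ℝ (ξ + t • m) m) =
        fun t : ℝ => -(2 * N / R ^ 2) * (inner ℝ ξ m + t * ‖m‖ ^ 2) := by
      funext t
      rw [inner_add_left, real_inner_smul_left, real_inner_self_eq_norm_sq]
    rw [h3]
    have h4 := (((hasDerivAt_id (0 : ℝ)).mul_const (‖m‖ ^ 2)).const_add (inner ℝ ξ m)).const_mul
      (-(2 * N / R ^ 2))
    refine h4.congr_deriv ?_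
    ring
  have h5 := (h1.mul h2).ofReal_comp
  have h6 : lineDeriv ℝ (∂_{m} (Sp (n := n) hh hN hR) : 𝓢(E n, ℂ)) ξ m =
      deriv (fun t : ℝ => (((deriv h (N * (1 - ‖ξ + t • m‖ ^ 2 / R ^ 2)) *
        (-(2 * N / R ^ 2) * inner ℝ (ξ + t • m) m) : ℝ)) : ℂ)) 0 := by
    unfold lineDeriv
    congr 1
    funext t
    exact line1 hh hN hR m (ξ + t • m)
  rw [h6]
  refine h5.deriv.trans ?_
  congr 1
  simp only [zero_smul, add_zero]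
  ring

lemma lap_Sp {h : ℝ → ℝ} (hh : Bmp h) {N R : ℝ} (hN : 0 < N) (hR : 0 < R) (ξ : E n) :
    (Δ (Sp hh hN hR)) ξ =
      ((deriv (deriv h) (N * (1 - ‖ξ‖ ^ 2 / R ^ 2)) * ((2 * N / R ^ 2) ^ 2 * ‖ξ‖ ^ 2)
        - 2 * N / R ^ 2 * n * deriv h (N * (1 - ‖ξ‖ ^ 2 / R ^ 2)) : ℝ) : ℂ) := by
  rw [laplacian_eq_sum (EuclideanSpace.basisFun (Fin n) ℝ)]
  rw [_root_.sum_apply, Finset.sum_congr rfl fun i _ => line2 hh hN hR _ ξ]
  rw [← Complex.ofReal_sum]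
  congr 1
  rw [Finset.sum_sub_distrib, ← Finset.mul_sum, ← Finset.mul_sum,
    (EuclideanSpace.basisFun (Fin n) ℝ).sum_sq_inner_left]
  congr 1
  simp
  ring

end Pool.Agent.W773.BRA
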