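import Pool.Agent.W773.BRA.B
set_option autoImplicit false

/-! Iterated weighted Fourier transforms of annular multipliers, uniform bounds. -/

namespace Pool.Agent.W773.BRA

open Set Filter MeasureTheory SchwartzMap
open scoped Topology ContDiff FourierTransform LineDeriv Laplacian

variable {n : ℕ}

/-- families of bumps depending smoothly on a parameter -/
def JB (H : ℝ × ℝ → ℝ) : Prop :=
  ContDiff ℝ ∞ H ∧ ∀ z : ℝ × ℝ, z.2 ∉ Icc (1 / 2 : ℝ) 2 → H z = 0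

/-- derivative in the second variable -/
noncomputable def DU (H : ℝ × ℝ → ℝ) (z : ℝ × ℝ) : ℝ := fderiv ℝ H z (0, 1)

lemma JB.DU {H : ℝ × ℝ → ℝ} (hH : JB H) : JB (DU H) := by
  refine ⟨(hH.1.fderiv_right (m := ∞) (by simp)).clm_apply contDiff_const, fun z hz => ?_⟩
  have h1 : IsOpen {w : ℝ × ℝ | w.2 ∉ Icc (1 / 2 : ℝ) 2} :=
    (isClosed_Icc.preimage continuous_snd).isOpen_compl
  have h2 : H =ᶠ[𝓝 z] fun _ => (0 : ℝ) := by
    filter_upwards [h1.mem_nhds hz] with w hw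
    exact hH.2 w hw
  unfold BRA.DU
  rw [h2.fderiv_eq]
  simp

lemma JB.hasDerivAt {H : ℝ × ℝ → ℝ} (hH : JB H) (e u : ℝ) :
    HasDerivAt (fun u => H (e, u)) (BRA.DU H (e, u)) u := by
  have h1 : HasFDerivAt H (fderiv ℝ H (e, u)) (e, u) :=
    (hH.1.differentiable (by simp)).differentiableAt.hasFDerivAt
  have h2 : HasDerivAt (fun u : ℝ => (e, u)) (0, 1) u :=
    (hasDerivAt_const u e).prodMk (hasDerivAt_id u)
  exact h1.comp_hasDerivAt u h2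

lemma JB.slice {H : ℝ × ℝ → ℝ} (hH : JB H) (e : ℝ) : Bmp (fun u => H (e, u)) :=
  ⟨hH.1.comp (contDiff_const.prodMk contDiff_id), fun u hu => hH.2 (e, u) hu⟩

lemma JB.deriv_slice {H : ℝ × ℝ → ℝ} (hH : JB H) (e : ℝ) :
    deriv (fun u => H (e, u)) = fun u => BRA.DU H (e, u) := by
  funext u
  exact (hH.hasDerivAt e u).deriv

/-- the next function of the recursion -/
noncomputable def NX (n : ℕ) (H : ℝ × ℝ → ℝ) (z : ℝ × ℝ) : ℝ :=
  H z - (1 / (2 * Real.pi) ^ 2) * (4 * (1 - z.1 * z.2) * BRA.DU (BRA.DU H) z - 2 * n * z.1 * BRA.DU H z)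

lemma JB.NX {H : ℝ × ℝ → ℝ} (hH : JB H) : JB (NX n H) := by
  refine ⟨?_, fun z hz => ?_⟩
  · have h1 := hH.DU.1
    have h2 := hH.DU.DU.1
    exact hH.1.sub (contDiff_const.mul (((contDiff_const.mul (contDiff_const.sub
      (contDiff_fst.mul contDiff_snd))).mul h2).sub ((contDiff_const.mul contDiff_fst).mul h1)))
  · unfold BRA.NX
    rw [hH.2 z hz, hH.DU.2 z hz, hH.DU.DU.2 z hz]
    ring

lemma JB.bound {H : ℝ × ℝ → ℝ} (hH : JB H) :
    ∃ C : ℝ, 0 < C ∧ ∀ e ∈ Icc (0 : ℝ) 1, ∀ u : ℝ, |H (e, u)| ≤ C := by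
  have hK : IsCompact (Icc (0 : ℝ) 1 ×ˢ Icc (1 / 2 : ℝ) 2) := isCompact_Icc.prod isCompact_Icc
  obtain ⟨C, hC⟩ := hK.exists_bound_of_continuousOn hH.1.continuous.continuousOn
  refine ⟨|C| + 1, by positivity, fun e he u => ?_⟩
  by_cases hu : u ∈ Icc (1 / 2 : ℝ) 2
  · have := hC (e, u) ⟨he, hu⟩
    rw [Real.norm_eq_abs] at this
    linarith [le_abs_self C]
  · rw [hH.2 (e, u) hu, abs_zero]
    positivity

/-- the iterates -/
noncomputable def HH (n : ℕ) (h : ℝ → ℝ) : ℕ → (ℝ × ℝ → ℝ)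
  | 0 => fun z => h z.2
  | a + 1 => NX n (HH n h a)

lemma HH_JB {h : ℝ → ℝ} (hh : Bmp h) (a : ℕ) : JB (HH n h a) := by
  induction a with
  | zero => exact ⟨hh.1.comp contDiff_snd, fun z hz => hh.2 _ hz⟩
  | succ a ih => exact ih.NX

lemma Sp_NX {H : ℝ × ℝ → ℝ} (hH : JB H) {N R : ℝ} (hN : 0 < N) (hR : 0 < R) :
    Sp (n := n) ((JB.NX (n := n) hH).slice (1 / N)) hN hR = Sp (hH.slice (1 / N)) hN hR -
      (R ^ 2 / ((2 * Real.pi) ^ 2 * N ^ 2)) • Δ (Sp (n := n) (hH.slice (1 / N)) hN hR) := by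
  ext ξ
  rw [_root_.sub_apply, _root_.smul_apply, lap_Sp, Sp_apply, Sp_apply]
  rw [hH.deriv_slice, hH.DU.deriv_slice]
  unfold prof NX
  rw [Complex.real_smul, ← Complex.ofReal_mul, ← Complex.ofReal_sub]
  congr 1
  simp only
  have hpi : (0 : ℝ) < Real.pi := Real.pi_pos
  field_simp
  ring

lemma fourier_Sp_NX {H : ℝ × ℝ → ℝ} (hH : JB H) {N R : ℝ} (hN : 0 < N) (hR : 0 < R) (x : E n) :
    𝓕 (Sp (n := n) ((JB.NX (n := n) hH).slice (1 / N)) hN hR) x =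
      ((1 + R ^ 2 / N ^ 2 * ‖x‖ ^ 2 : ℝ) : ℂ) * 𝓕 (Sp (n := n) (hH.slice (1 / N)) hN hR) x := by
  rw [Sp_NX hH hN hR, laplacian_eq_fourierMultiplierCLM, fourierMultiplierCLM_apply]
  set g := Sp (n := n) (hH.slice (1 / N)) hN hR with hg
  have e1 : 𝓕 (g - (R ^ 2 / ((2 * Real.pi) ^ 2 * N ^ 2)) • (-(2 * Real.pi) ^ 2) •
      𝓕⁻ (smulLeftCLM ℂ (fun x : E n => ‖x‖ ^ 2) (𝓕 g))) =
      𝓕 g - (R ^ 2 / ((2 * Real.pi) ^ 2 * N ^ 2)) • (-(2 * Real.pi) ^ 2) •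
        (smulLeftCLM ℂ (fun x : E n => ‖x‖ ^ 2) (𝓕 g)) := by
    rw [sub_eq_add_neg, ← neg_smul, FourierTransform.fourier_add, FourierTransform.fourier_smul,
      FourierTransform.fourier_smul, FourierTransform.fourier_fourierInv_eq, neg_smul, ← sub_eq_add_neg]
  rw [show (‖·‖ ^ 2 : E n → ℝ) = fun x : E n => ‖x‖ ^ 2 from rfl]
  rw [e1, _root_.sub_apply, _root_.smul_apply, _root_.smul_apply,
    smulLeftCLM_apply_apply (by fun_prop)]
  simp only [Complex.real_smul]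
  have hpi : (Real.pi : ℂ) ≠ 0 := by exact_mod_cast Real.pi_pos.ne'
  have hN' : (N : ℂ) ≠ 0 := by exact_mod_cast hN.ne'
  push_cast
  field_simp
  ring

lemma fourier_HH {h : ℝ → ℝ} (hh : Bmp h) {N R : ℝ} (hN : 0 < N) (hR : 0 < R) (a : ℕ) (x : E n) :
    𝓕 (Sp (n := n) ((HH_JB (n := n) hh a).slice (1 / N)) hN hR) x =
      ((1 + R ^ 2 / N ^ 2 * ‖x‖ ^ 2 : ℝ) : ℂ) ^ a * 𝓕 (Sp (n := n) hh hN hR) x := by
  induction a with
  | zero => rw [pow_zero, one_mul]; rfl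
  | succ a ih =>
    have := fourier_Sp_NX (n := n) (HH_JB (n := n) hh a) hN hR x
    rw [pow_succ', mul_assoc, ← ih, ← this]
    rfl

end Pool.Agent.W773.BRA
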