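import Pool.Agent.W773.BRA.C
import Pool.Agent.H153R4.Pl
set_option autoImplicit false

/-! The `L^1` norm of the kernel of an annular multiplier. -/

namespace Pool.Agent.W773.BRA

open Set Filter MeasureTheory SchwartzMap Metric
open scoped Topology ContDiff FourierTransform LineDeriv Laplacian ENNReal

variable {n : ℕ}

lemma pow_diff (hn : 2 ≤ n) {a b : ℝ} (ha : 0 ≤ a) (hab : a ≤ b) :
    b ^ n - a ^ n ≤ n * b ^ (n - 2) * (b ^ 2 - a ^ 2) := by
  have hb : 0 ≤ b := ha.trans hab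
  have h0 : 0 ≤ b ^ 2 - a ^ 2 := by nlinarith
  induction n, hn using Nat.le_induction with
  | base => simp; nlinarith
  | succ k hk ih =>
    have e1 : b ^ (k + 1 - 2) = b ^ (k - 2) * b := by
      rw [← pow_succ]; congr 1; omega
    have e2 : b ^ (k - 2) * b * b = b ^ k := by
      rw [mul_assoc, ← pow_two, ← pow_add]; congr 1; omega
    have h1 : a ^ k * (b - a) ≤ b ^ (k - 2) * b * (b ^ 2 - a ^ 2) := by
      have h2 : a ^ k = a ^ (k - 1) * a := by rw [← pow_succ]; congr 1; omega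
      have h3 : a ^ (k - 1) ≤ b ^ (k - 1) := pow_le_pow_left₀ ha hab _
      have h4 : b ^ (k - 2) * b = b ^ (k - 1) := by rw [← pow_succ]; congr 1; omega
      rw [h4, h2, mul_assoc]
      have h5 : 0 ≤ a * (b - a) := mul_nonneg ha (by linarith)
      have h6 : a * (b - a) ≤ b ^ 2 - a ^ 2 := by nlinarith
      exact mul_le_mul h3 h6 h5 (by positivity)
    have h7 : b ^ (k + 1) - a ^ (k + 1) = b * (b ^ k - a ^ k) + a ^ k * (b - a) := by ring
    rw [h7, e1]
    have h8 : b * (b ^ k - a ^ k) ≤ b * (k * b ^ (k - 2) * (b ^ 2 - a ^ 2)) :=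
      mul_le_mul_of_nonneg_left ih hb
    push_cast
    nlinarith

lemma ann_vol (hn : 2 ≤ n) : ∃ C : ℝ, 0 < C ∧ ∀ N R : ℝ, 1 ≤ N → 0 < R →
    volume {ξ : E n | 1 / 2 ≤ N * (1 - ‖ξ‖ ^ 2 / R ^ 2) ∧ N * (1 - ‖ξ‖ ^ 2 / R ^ 2) ≤ 2} ≤
      ENNReal.ofReal (C * (R ^ n / N)) := by
  set w : ℝ := (volume : Measure (E n)).real (ball 0 1) with hw
  have hw0 : 0 ≤ w := measureReal_nonneg
  refine ⟨2 * n * (w + 1), by positivity, fun N R hN hR => ?_⟩
  have hN0 : 0 < N := by linarith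
  set a : ℝ := R * Real.sqrt (max 0 (1 - 2 / N)) with ha
  have ha0 : 0 ≤ a := by positivity
  have hm1 : max 0 (1 - 2 / N) ≤ 1 := max_le (by norm_num) (by
    have : 0 < 2 / N := by positivity
    linarith)
  have haR : a ≤ R := by
    rw [ha]
    have : Real.sqrt (max 0 (1 - 2 / N)) ≤ 1 := Real.sqrt_le_one.2 hm1
    nlinarith
  have ha2 : a ^ 2 = R ^ 2 * max 0 (1 - 2 / N) := by
    rw [ha, mul_pow, Real.sq_sqrt (le_max_left _ _)]
  have hdiff : R ^ 2 - a ^ 2 ≤ 2 * R ^ 2 / N := by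
    rw [ha2]
    have h1 : 1 - 2 / N ≤ max 0 (1 - 2 / N) := le_max_right _ _
    have h2 : R ^ 2 - R ^ 2 * max 0 (1 - 2 / N) ≤ R ^ 2 - R ^ 2 * (1 - 2 / N) := by
      have : 0 ≤ R ^ 2 := by positivity
      nlinarith
    refine h2.trans (le_of_eq ?_)
    field_simp
    ring
  have hsub : {ξ : E n | 1 / 2 ≤ N * (1 - ‖ξ‖ ^ 2 / R ^ 2) ∧ N * (1 - ‖ξ‖ ^ 2 / R ^ 2) ≤ 2} ⊆
      closedBall 0 R \ ball 0 a := by
    rintro ξ ⟨h1, h2⟩
    refine ⟨?_, ?_⟩
    · rw [mem_closedBall_zero_iff]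
      have h3 : 0 < 1 - ‖ξ‖ ^ 2 / R ^ 2 := by
        by_contra hcon
        rw [not_lt] at hcon
        nlinarith
      have h4 : ‖ξ‖ ^ 2 / R ^ 2 < 1 := by linarith
      rw [div_lt_one (by positivity)] at h4
      exact le_of_lt (lt_of_pow_lt_pow_left₀ 2 hR.le h4)
    · rw [mem_ball_zero_iff, not_lt]
      apply le_of_sq_le_sq _ (norm_nonneg _)
      rw [ha2]
      have h5 : 1 - ‖ξ‖ ^ 2 / R ^ 2 ≤ 2 / N := by
        rw [le_div_iff₀ hN0]; linarith
      have h6 : 1 - 2 / N ≤ ‖ξ‖ ^ 2 / R ^ 2 := by linarith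
      have h7 : max 0 (1 - 2 / N) ≤ ‖ξ‖ ^ 2 / R ^ 2 := max_le (by positivity) h6
      calc R ^ 2 * max 0 (1 - 2 / N) ≤ R ^ 2 * (‖ξ‖ ^ 2 / R ^ 2) := by gcongr
        _ = ‖ξ‖ ^ 2 := by field_simp
  have hball : ball (0 : E n) a ⊆ closedBall 0 R :=
    ball_subset_closedBall.trans (closedBall_subset_closedBall haR)
  refine (measure_mono hsub).trans ?_
  have hreal : (volume : Measure (E n)).real (closedBall 0 R \ ball 0 a) = (R ^ n - a ^ n) * w := by
    rw [measureReal_sdiff hball measurableSet_ball (h₁ := measure_closedBall_lt_top.ne)]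
    rw [Measure.addHaar_real_closedBall _ _ hR.le]
    have : Nontrivial (E n) := by
      have : Nonempty (Fin n) := ⟨⟨0, by omega⟩⟩
      infer_instance
    have hb : (volume : Measure (E n)).real (ball 0 a) = a ^ n * w := by
      rw [measureReal_def, Measure.addHaar_ball _ _ ha0, finrank_euclideanSpace_fin,
        ENNReal.toReal_mul, ENNReal.toReal_ofReal (by positivity), hw, measureReal_def]
    rw [hb, finrank_euclideanSpace_fin]
    ring
  have hfin : volume (closedBall (0 : E n) R \ ball 0 a) ≠ ⊤ :=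
    ((measure_mono sdiff_subset).trans_lt measure_closedBall_lt_top).ne
  rw [← ofReal_measureReal hfin, hreal]
  apply ENNReal.ofReal_le_ofReal
  have h1 := pow_diff hn ha0 haR
  have h2 : R ^ (n - 2) * R ^ 2 = R ^ n := by rw [← pow_add]; congr 1; omega
  calc (R ^ n - a ^ n) * w ≤ (n * R ^ (n - 2) * (R ^ 2 - a ^ 2)) * w := by gcongr
    _ ≤ (n * R ^ (n - 2) * (2 * R ^ 2 / N)) * (w + 1) := by
        have h3 : 0 ≤ R ^ 2 - a ^ 2 := by nlinarith
        gcongr
        linarith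
    _ = 2 * n * (w + 1) * (R ^ (n - 2) * R ^ 2 / N) := by ring
    _ = _ := by rw [h2]

end Pool.Agent.W773.BRA
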