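import Pool.Agent.W773.BRA.D
set_option autoImplicit false

/-! The `L^1` norm of the kernel of an annular multiplier. -/

namespace Pool.Agent.W773.BRA

open Set Filter MeasureTheory SchwartzMap Metric
open scoped Topology ContDiff FourierTransform LineDeriv Laplacian ENNReal

variable {n : ℕ}

lemma weight_int (hn : 2 ≤ n) : ∃ C : ℝ, 0 < C ∧ ∀ t : ℝ, 0 < t →
    ∫⁻ x : E n, (ENNReal.ofReal (((1 + t ^ 2 * ‖x‖ ^ 2)⁻¹) ^ n)) ^ (2 : ℝ) ≤
      ENNReal.ofReal (C * (t⁻¹) ^ n) := by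
  set φ : E n → ℝ := fun y => (1 + ‖y‖ ^ 2) ^ (-(4 * n : ℝ) / 2) with hφ
  have hint : Integrable φ := by
    apply integrable_rpow_neg_one_add_norm_sq
    rw [finrank_euclideanSpace_fin]
    have : (2 : ℝ) ≤ n := by exact_mod_cast hn
    linarith
  have hφ0 : ∀ y, 0 ≤ φ y := fun y => Real.rpow_nonneg (by positivity) _
  refine ⟨(∫ y, φ y) + 1, by
    have : 0 ≤ ∫ y, φ y := integral_nonneg hφ0
    linarith, fun t ht => ?_⟩
  have e1 : ∀ x : E n, (ENNReal.ofReal (((1 + t ^ 2 * ‖x‖ ^ 2)⁻¹) ^ n)) ^ (2 : ℝ) =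
      ENNReal.ofReal (φ (t • x)) := by
    intro x
    have h0 : (0 : ℝ) < 1 + t ^ 2 * ‖x‖ ^ 2 := by positivity
    rw [ENNReal.ofReal_rpow_of_nonneg (by positivity) (by norm_num)]
    congr 1
    rw [hφ]
    simp only
    rw [norm_smul, mul_pow, Real.norm_eq_abs, sq_abs]
    rw [show -(4 * n : ℝ) / 2 = -((2 * n : ℕ) : ℝ) by push_cast; ring, Real.rpow_neg h0.le,
      Real.rpow_natCast, Real.rpow_two, inv_pow, inv_pow, ← pow_mul]
    congr 2
    ring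
  simp_rw [e1]
  have hint2 : Integrable (fun x : E n => φ (t • x)) := hint.comp_smul ht.ne'
  rw [← ofReal_integral_eq_lintegral_ofReal hint2 (Eventually.of_forall fun x => hφ0 _)]
  apply ENNReal.ofReal_le_ofReal
  rw [Measure.integral_comp_smul, finrank_euclideanSpace_fin, abs_of_nonneg (by positivity),
    smul_eq_mul, ← inv_pow]
  have : 0 ≤ (t⁻¹) ^ n := by positivity
  nlinarith

lemma profile_L2 (hn : 2 ≤ n) : ∃ C : ℝ, 0 < C ∧ ∀ (h : ℝ → ℝ) (hh : Bmp h) (M : ℝ),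
    (∀ u, |h u| ≤ M) → ∀ (N R : ℝ), 1 ≤ N → 0 < R →
    ∫⁻ ξ : E n, ‖prof h N R ξ‖ₑ ^ 2 ≤ ENNReal.ofReal (C * M ^ 2 * (R ^ n / N)) := by
  obtain ⟨C, hC, hvol⟩ := ann_vol hn
  refine ⟨C, hC, fun h hh M hM N R hN hR => ?_⟩
  have hM0 : 0 ≤ M := (abs_nonneg _).trans (hM 0)
  set A : Set (E n) :=
    {ξ : E n | 1 / 2 ≤ N * (1 - ‖ξ‖ ^ 2 / R ^ 2) ∧ N * (1 - ‖ξ‖ ^ 2 / R ^ 2) ≤ 2} with hA
  have hAm : MeasurableSet A := by
    have hu : Measurable (fun ξ : E n => N * (1 - ‖ξ‖ ^ 2 / R ^ 2)) := by fun_prop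
    exact (measurableSet_le measurable_const hu).inter (measurableSet_le hu measurable_const)
  have h1 : ∀ ξ : E n, ‖prof h N R ξ‖ₑ ^ 2 ≤ A.indicator (fun _ => ENNReal.ofReal (M ^ 2)) ξ := by
    intro ξ
    by_cases hξ : ξ ∈ A
    · rw [indicator_of_mem hξ]
      have : ‖prof h N R ξ‖ₑ ≤ ENNReal.ofReal M := by
        rw [← ofReal_norm]
        apply ENNReal.ofReal_le_ofReal
        unfold prof
        rw [Complex.norm_real, Real.norm_eq_abs]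
        exact hM _
      rw [ENNReal.ofReal_pow hM0]
      gcongr
    · rw [indicator_of_notMem hξ]
      have : prof h N R ξ = 0 := by
        by_contra hcon
        exact hξ (prof_ne hh hcon)
      rw [this]
      simp
  refine (lintegral_mono h1).trans ?_
  rw [lintegral_indicator hAm, setLIntegral_const]
  refine (mul_le_mul_right (hvol N R hN hR) _).trans ?_
  rw [← ENNReal.ofReal_mul (by positivity)]
  apply ENNReal.ofReal_le_ofReal
  apply le_of_eq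
  ring

theorem kernel_L1 (hn : 2 ≤ n) {h : ℝ → ℝ} (hh : Bmp h) : ∃ C : ℝ, 0 < C ∧
    ∀ (N R : ℝ) (_ : 1 ≤ N) (hN0 : 0 < N) (hR : 0 < R),
    ∫⁻ x : E n, ‖𝓕 (Sp (n := n) hh hN0 hR) x‖ₑ ≤ ENNReal.ofReal (C * N ^ (((n : ℝ) - 1) / 2)) := by
  obtain ⟨C1, hC1, hw⟩ := weight_int hn
  obtain ⟨C2, hC2, hp⟩ := profile_L2 hn
  obtain ⟨M, hM, hb⟩ := (HH_JB (n := n) hh n).bound
  refine ⟨Real.sqrt (C1 * (C2 * M ^ 2)), by positivity, fun N R hN hN0 hR => ?_⟩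
  set G := Sp (n := n) ((HH_JB (n := n) hh n).slice (1 / N)) hN0 hR with hG
  have hW : ∀ x : E n, (0 : ℝ) < 1 + (R / N) ^ 2 * ‖x‖ ^ 2 := fun x => by positivity
  have e1 : ∀ x : E n, ‖𝓕 (Sp (n := n) hh hN0 hR) x‖ₑ =
      ENNReal.ofReal (((1 + (R / N) ^ 2 * ‖x‖ ^ 2)⁻¹) ^ n) * ‖𝓕 G x‖ₑ := by
    intro x
    have h1 := fourier_HH hh hN0 hR n x
    rw [← hG, ← div_pow] at h1
    have h2 : 𝓕 (Sp (n := n) hh hN0 hR) x = (((1 + (R / N) ^ 2 * ‖x‖ ^ 2)⁻¹ ^ n : ℝ) : ℂ) * 𝓕 G x := by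
      rw [h1, ← mul_assoc, ← Complex.ofReal_pow, ← Complex.ofReal_mul, ← mul_pow,
        inv_mul_cancel₀ (hW x).ne']
      simp
    rw [h2, enorm_mul]
    congr 1
    rw [← ofReal_norm, Complex.norm_real, Real.norm_eq_abs, abs_of_nonneg (by positivity)]
  simp_rw [e1]
  have hmeas1 : Measurable (fun x : E n => ENNReal.ofReal (((1 + (R / N) ^ 2 * ‖x‖ ^ 2)⁻¹) ^ n)) := by
    fun_prop
  have hmeas2 : Measurable (fun x : E n => ‖𝓕 G x‖ₑ) := (𝓕 G).continuous.measurable.enorm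
  have hH := ENNReal.lintegral_mul_le_Lp_mul_Lq (volume : Measure (E n)) Real.HolderConjugate.two_two
    hmeas1.aemeasurable hmeas2.aemeasurable
  refine hH.trans ?_
  have hI1 := hw (R / N) (by positivity)
  have hI2 : ∫⁻ x : E n, ‖𝓕 G x‖ₑ ^ (2 : ℝ) ≤ ENNReal.ofReal (C2 * M ^ 2 * (R ^ n / N)) := by
    have h3 : ∫⁻ x : E n, ‖𝓕 G x‖ₑ ^ 2 = ∫⁻ x : E n, ‖G x‖ₑ ^ 2 := by
      have := Pool.Agent.H153R4.plancherel (G : E n → ℂ) G.integrable (G.memLp 2)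
      rw [← SchwartzMap.fourier_coe] at this
      exact this
    simp_rw [ENNReal.rpow_two]
    rw [h3]
    have h4 : 1 / N ∈ Icc (0 : ℝ) 1 := ⟨by positivity, by rw [div_le_one hN0]; exact hN⟩
    exact hp _ ((HH_JB (n := n) hh n).slice (1 / N)) M (fun u => hb _ h4 u) N R hN hR
  calc _ ≤ (ENNReal.ofReal (C1 * ((R / N)⁻¹) ^ n)) ^ (1 / (2 : ℝ)) *
        (ENNReal.ofReal (C2 * M ^ 2 * (R ^ n / N))) ^ (1 / (2 : ℝ)) := by gcongr
    _ = ENNReal.ofReal ((C1 * (C2 * M ^ 2) * N ^ ((n : ℝ) - 1)) ^ (1 / (2 : ℝ))) := by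
        rw [← ENNReal.mul_rpow_of_nonneg _ _ (by norm_num), ← ENNReal.ofReal_mul (by positivity),
          ENNReal.ofReal_rpow_of_nonneg (by positivity) (by norm_num)]
        congr 2
        rw [Real.rpow_sub hN0, Real.rpow_natCast, Real.rpow_one, inv_div, div_pow]
        field_simp
    _ = _ := by
        congr 1
        rw [Real.mul_rpow (by positivity) (by positivity), Real.sqrt_eq_rpow,
          ← Real.rpow_mul hN0.le]
        congr 2
        ring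

end Pool.Agent.W773.BRA
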