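import Pool.Agent.W773.BRA.D2
set_option autoImplicit false

/-! The operators with annular multipliers. -/

namespace Pool.Agent.W773.BRA

open Set Filter MeasureTheory SchwartzMap Metric
open scoped Topology ContDiff FourierTransform ENNReal RealInnerProductSpace

variable {n : ℕ}

/-- the operator with multiplier `h (N (1 - |ξ|^2 / R^2))` -/
noncomputable def T (h : ℝ → ℝ) (N R : ℝ) (g : E n → ℂ) (x : E n) : ℂ :=
  𝓕⁻ (fun ξ : E n => prof h N R ξ * 𝓕 g ξ) x

lemma cont_F {g : E n → ℂ} (hg : Integrable g) : Continuous (𝓕 g) :=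
  VectorFourier.fourierIntegral_continuous (L := innerₗ (E n)) Real.continuous_fourierChar
    continuous_inner hg

lemma prodF_cont {h : ℝ → ℝ} (hh : Bmp h) (N R : ℝ) {g : E n → ℂ} (hg : Integrable g) :
    Continuous (fun ξ : E n => prof h N R ξ * 𝓕 g ξ) :=
  (prof_contDiff hh.1 N R).continuous.mul (cont_F hg)

lemma prodF_compact {h : ℝ → ℝ} (hh : Bmp h) {N R : ℝ} (hN : 0 < N) (hR : 0 < R) (g : E n → ℂ) :
    HasCompactSupport (fun ξ : E n => prof h N R ξ * 𝓕 g ξ) :=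
  (prof_compact hh hN hR).mul_right

lemma prodF_int {h : ℝ → ℝ} (hh : Bmp h) {N R : ℝ} (hN : 0 < N) (hR : 0 < R) {g : E n → ℂ}
    (hg : Integrable g) : Integrable (fun ξ : E n => prof h N R ξ * 𝓕 g ξ) :=
  (prodF_cont hh N R hg).integrable_of_hasCompactSupport (prodF_compact hh hN hR g)

lemma T_L2 {h : ℝ → ℝ} (hh : Bmp h) {N R : ℝ} (hN : 0 < N) (hR : 0 < R) {g : E n → ℂ}
    (hg : Integrable g) :
    ∫⁻ x, ‖T h N R g x‖ₑ ^ 2 = ∫⁻ ξ : E n, ‖prof h N R ξ‖ₑ ^ 2 * ‖𝓕 g ξ‖ₑ ^ 2 := by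
  set F : E n → ℂ := fun ξ : E n => prof h N R ξ * 𝓕 g ξ with hF
  have hm : MemLp F 2 := (prodF_cont hh N R hg).memLp_of_hasCompactSupport (prodF_compact hh hN hR g)
  have h1 := Pool.Agent.H153R4.plancherel F (prodF_int hh hN hR hg) hm
  have h2 : ∫⁻ x, ‖T h N R g x‖ₑ ^ 2 = ∫⁻ x : E n, ‖𝓕 F (-x)‖ₑ ^ 2 := by
    apply lintegral_congr
    intro x
    unfold T
    rw [← hF, Real.fourierInv_eq_fourier_neg]
  rw [h2, lintegral_neg_eq_self (fun x : E n => ‖𝓕 F x‖ₑ ^ 2), h1]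
  apply lintegral_congr
  intro ξ
  rw [hF]
  simp only [enorm_mul, mul_pow]

lemma T_kernel {h : ℝ → ℝ} (hh : Bmp h) {N R : ℝ} (hN : 0 < N) (hR : 0 < R) {g : E n → ℂ}
    (hg : Integrable g) (x : E n) :
    T h N R g x = ∫ y, 𝓕 (prof h N R : E n → ℂ) (y - x) * g y := by
  have hp : Integrable (prof h N R : E n → ℂ) :=
    (prof_contDiff hh.1 N R).continuous.integrable_of_hasCompactSupport (prof_compact hh hN hR)
  set q : E n → ℂ := fun ξ => (Real.fourierChar ⟪ξ, x⟫ : ℂ) * prof h N R ξ with hq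
  have hqi : Integrable q := by
    have : Continuous q := by
      have h1 : Continuous (fun ξ : E n => (Real.fourierChar ⟪ξ, x⟫ : ℂ)) :=
        continuous_subtype_val.comp (Real.continuous_fourierChar.comp (by fun_prop))
      exact h1.mul (prof_contDiff hh.1 N R).continuous
    exact this.integrable_of_hasCompactSupport ((prof_compact hh hN hR).mul_left)
  have h1 : T h N R g x = ∫ ξ, q ξ * 𝓕 g ξ := by
    unfold T
    rw [Real.fourierInv_eq]
    apply integral_congr_ae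
    filter_upwards with ξ
    rw [hq, Circle.smul_def, smul_eq_mul]
    ring
  have h2 := VectorFourier.integral_fourierIntegral_smul_eq_flip (L := innerₗ (E n))
      Real.continuous_fourierChar continuous_inner hqi hg (μ := volume) (ν := volume)
  simp only [flip_innerₗ] at h2
  have h3 : ∫ y, 𝓕 q y • g y = ∫ ξ, q ξ • 𝓕 g ξ := h2
  rw [h1]
  simp only [smul_eq_mul] at h3
  rw [← h3]
  apply integral_congr_ae
  filter_upwards with y
  congr 1
  rw [Real.fourier_eq, Real.fourier_eq]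
  apply integral_congr_ae
  filter_upwards with ξ
  rw [hq]
  simp only [Circle.smul_def, smul_eq_mul]
  rw [← mul_assoc]
  congr 1
  rw [inner_sub_right, neg_sub, sub_eq_add_neg, AddChar.map_add_eq_mul]
  push_cast
  ring

lemma T_add {h : ℝ → ℝ} (hh : Bmp h) {N R : ℝ} (hN : 0 < N) (hR : 0 < R) {g1 g2 : E n → ℂ}
    (h1 : Integrable g1) (h2 : Integrable g2) (x : E n) :
    T h N R (fun y => g1 y + g2 y) x = T h N R g1 x + T h N R g2 x := by
  have h12 : Integrable (fun y => g1 y + g2 y) := h1.add h2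
  rw [T_kernel hh hN hR h12, T_kernel hh hN hR h1, T_kernel hh hN hR h2]
  have hK : Continuous (𝓕 (prof h N R : E n → ℂ)) := cont_F
    ((prof_contDiff hh.1 N R).continuous.integrable_of_hasCompactSupport (prof_compact hh hN hR))
  have hb : ∀ y : E n, ‖𝓕 (prof h N R : E n → ℂ) y‖ ≤ ∫ v : E n, ‖prof h N R v‖ := fun y =>
    VectorFourier.norm_fourierIntegral_le_integral_norm _ _ _ _ _
  have hi : ∀ g : E n → ℂ, Integrable g →
      Integrable (fun y => 𝓕 (prof h N R : E n → ℂ) (y - x) * g y) := by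
    intro g hg
    exact hg.bdd_mul (hK.comp (continuous_id.sub continuous_const)).aestronglyMeasurable
      (Eventually.of_forall fun y => hb _)
  rw [← integral_add (hi _ h1) (hi _ h2)]
  apply integral_congr_ae
  filter_upwards with y
  ring

/-- `L^1` norm of the kernel -/
noncomputable def KN (n : ℕ) (h : ℝ → ℝ) (N R : ℝ) : ℝ≥0∞ := ∫⁻ x : E n, ‖𝓕 (prof h N R : E n → ℂ) x‖ₑ

lemma T_enorm {h : ℝ → ℝ} (hh : Bmp h) {N R : ℝ} (hN : 0 < N) (hR : 0 < R) {g : E n → ℂ}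
    (hg : Integrable g) (x : E n) :
    ‖T h N R g x‖ₑ ≤ ∫⁻ y, ‖𝓕 (prof h N R : E n → ℂ) (y - x)‖ₑ * ‖g y‖ₑ := by
  rw [T_kernel hh hN hR hg]
  refine (enorm_integral_le_lintegral_enorm _).trans (le_of_eq ?_)
  simp_rw [enorm_mul]

lemma K_meas {h : ℝ → ℝ} (hh : Bmp h) {N R : ℝ} (hN : 0 < N) (hR : 0 < R) :
    Measurable (fun z : E n => ‖𝓕 (prof h N R : E n → ℂ) z‖ₑ) :=
  (cont_F ((prof_contDiff hh.1 N R).continuous.integrable_of_hasCompactSupport
    (prof_compact hh hN hR))).measurable.enorm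

lemma T_sup {h : ℝ → ℝ} (hh : Bmp h) {N R : ℝ} (hN : 0 < N) (hR : 0 < R) {g : E n → ℂ}
    (hg : Integrable g) {B : ℝ≥0∞} (hB : ∀ y, ‖g y‖ₑ ≤ B) (x : E n) :
    ‖T h N R g x‖ₑ ≤ KN n h N R * B := by
  refine (T_enorm hh hN hR hg x).trans ?_
  calc ∫⁻ y, ‖𝓕 (prof h N R : E n → ℂ) (y - x)‖ₑ * ‖g y‖ₑ
      ≤ ∫⁻ y, ‖𝓕 (prof h N R : E n → ℂ) (y - x)‖ₑ * B :=
        lintegral_mono fun y => mul_le_mul_right (hB y) _
    _ = (∫⁻ y, ‖𝓕 (prof h N R : E n → ℂ) (y - x)‖ₑ) * B :=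
        lintegral_mul_const _ ((K_meas hh hN hR).comp (measurable_id.sub_const x))
    _ = KN n h N R * B := by
        rw [lintegral_sub_right_eq_self (fun z : E n => ‖𝓕 (prof h N R : E n → ℂ) z‖ₑ)]
        rfl

lemma T_L1 {h : ℝ → ℝ} (hh : Bmp h) {N R : ℝ} (hN : 0 < N) (hR : 0 < R) {g : E n → ℂ}
    (hg : Integrable g) (hgm : Measurable g) :
    ∫⁻ x, ‖T h N R g x‖ₑ ≤ KN n h N R * ∫⁻ y, ‖g y‖ₑ := by
  have hm : Measurable (fun z : E n × E n => ‖𝓕 (prof h N R : E n → ℂ) (z.2 - z.1)‖ₑ * ‖g z.2‖ₑ) :=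
    ((K_meas hh hN hR).comp (measurable_snd.sub measurable_fst)).mul
      (hgm.comp measurable_snd).enorm
  calc ∫⁻ x, ‖T h N R g x‖ₑ
      ≤ ∫⁻ x, ∫⁻ y, ‖𝓕 (prof h N R : E n → ℂ) (y - x)‖ₑ * ‖g y‖ₑ :=
        lintegral_mono fun x => T_enorm hh hN hR hg x
    _ = ∫⁻ y, ∫⁻ x, ‖𝓕 (prof h N R : E n → ℂ) (y - x)‖ₑ * ‖g y‖ₑ :=
        lintegral_lintegral_swap hm.aemeasurable
    _ = ∫⁻ y, KN n h N R * ‖g y‖ₑ := by
        apply lintegral_congr
        intro y
        have hmm : Measurable (fun x : E n => ‖𝓕 (prof h N R : E n → ℂ) (y - x)‖ₑ) :=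
          (K_meas hh hN hR).comp (measurable_const.sub measurable_id)
        rw [lintegral_mul_const _ hmm]
        congr 1
        exact lintegral_sub_left_eq_self (fun z : E n => ‖𝓕 (prof h N R : E n → ℂ) z‖ₑ) y
    _ = _ := lintegral_const_mul _ hgm.enorm

lemma T_meas {h : ℝ → ℝ} (hh : Bmp h) (N : ℝ) {g : E n → ℂ} (hg : Integrable g) :
    Measurable (fun z : ℝ × E n => T h N z.1 g z.2) := by
  have h1 : Measurable (fun w : (ℝ × E n) × E n =>
      (Real.fourierChar ⟪w.2, w.1.2⟫ : ℂ) * (prof h N w.1.1 w.2 * 𝓕 g w.2)) := by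
    have a1 : Measurable (fun w : (ℝ × E n) × E n => (Real.fourierChar ⟪w.2, w.1.2⟫ : ℂ)) := by
      have : Continuous (fun w : (ℝ × E n) × E n => (Real.fourierChar ⟪w.2, w.1.2⟫ : ℂ)) :=
        continuous_subtype_val.comp (Real.continuous_fourierChar.comp (by fun_prop))
      exact this.measurable
    have a2 : Measurable (fun w : (ℝ × E n) × E n => prof h N w.1.1 w.2) := by
      unfold prof
      apply Complex.measurable_ofReal.comp
      apply hh.1.continuous.measurable.comp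
      fun_prop
    have a3 : Measurable (fun w : (ℝ × E n) × E n => 𝓕 g w.2) :=
      (cont_F hg).measurable.comp measurable_snd
    exact a1.mul (a2.mul a3)
  have h2 := (h1.stronglyMeasurable.integral_prod_right' (ν := (volume : Measure (E n)))).measurable
  have h3 : (fun z : ℝ × E n => T h N z.1 g z.2) = fun z : ℝ × E n =>
      ∫ ξ : E n, (Real.fourierChar ⟪ξ, z.2⟫ : ℂ) * (prof h N z.1 ξ * 𝓕 g ξ) := by
    funext z
    unfold T
    rw [Real.fourierInv_eq]
    rfl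
  rw [h3]
  exact h2

end Pool.Agent.W773.BRA
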