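import Mathlib
import Pool.Agent.H438R2.RZ.M1
set_option autoImplicit false

/-! Marcinkiewicz interpolation between 1 and 2, from the case of 2 and 4. -/

namespace Pool.Agent.W773.BRA

open MeasureTheory Set Filter
open scoped ENNReal Topology

theorem marc12 (p : ℝ) (hp : 1 < p) (hp2 : p < 2) : ∃ C : ℝ, 0 < C ∧
    ∀ {X Y : Type} [MeasurableSpace X] [MeasurableSpace Y] (μ : Measure X) (ν : Measure Y)
      [SFinite μ] (F : Y → ℝ) (f : X → ℝ), Measurable F → Measurable f → (∀ y, 0 ≤ F y) →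
      (∀ x, 0 ≤ f x) → ∀ M1 M2 : ℝ, 0 < M1 → 0 < M2 →
      (∀ t : ℝ, 0 < t → ∃ u v : Y → ℝ≥0∞, Measurable u ∧ Measurable v ∧
        (∀ᵐ y ∂ν, ENNReal.ofReal (F y) ≤ u y + v y) ∧
        ∫⁻ y, u y ∂ν ≤ ENNReal.ofReal M1 * ∫⁻ x in {x | t < f x}, ENNReal.ofReal (f x) ∂μ ∧
        ∫⁻ y, v y ^ 2 ∂ν ≤ ENNReal.ofReal M2 *
          ∫⁻ x in {x | f x ≤ t}, ENNReal.ofReal (f x) ^ 2 ∂μ) →
      ∫⁻ y, ENNReal.ofReal (F y) ^ p ∂ν ≤
        ENNReal.ofReal (C * M1 ^ (2 - p) * M2 ^ (p - 1)) *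
          ∫⁻ x, ENNReal.ofReal (f x) ^ p ∂μ := by
  obtain ⟨C, hC, H⟩ := Pool.Agent.H438R2.RZ.marc24 (2 * p) (by linarith) (by linarith)
  refine ⟨C, hC, ?_⟩
  intro X Y _ _ μ ν _ F f hF hf hF0 hf0 M1 M2 hM1 hM2 hyp
  have key := H μ ν (fun y => Real.sqrt (F y)) (fun x => Real.sqrt (f x)) hF.sqrt hf.sqrt
    (fun y => Real.sqrt_nonneg _) (fun x => Real.sqrt_nonneg _) M1 M2 hM1 hM2 ?_
  · have e1 : ∀ a : ℝ, 0 ≤ a → ENNReal.ofReal (Real.sqrt a) ^ (2 * p) = ENNReal.ofReal a ^ p := by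
      intro a ha
      rw [ENNReal.rpow_mul, ENNReal.rpow_two, ← ENNReal.ofReal_pow (Real.sqrt_nonneg _),
        Real.sq_sqrt ha]
    simp_rw [e1 _ (hF0 _), e1 _ (hf0 _)] at key
    rw [show (4 - 2 * p) / 2 = 2 - p by ring, show (2 * p - 2) / 2 = p - 1 by ring] at key
    exact key
  · intro t ht
    obtain ⟨u, v, hu, hv, huv, h1, h2⟩ := hyp (t ^ 2) (by positivity)
    have e2 : ∀ a : ℝ, 0 ≤ a → ENNReal.ofReal (Real.sqrt a) ^ 2 = ENNReal.ofReal a := by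
      intro a ha
      rw [← ENNReal.ofReal_pow (Real.sqrt_nonneg _), Real.sq_sqrt ha]
    have e3 : {x | t < Real.sqrt (f x)} = {x | t ^ 2 < f x} := by
      ext x
      exact Real.lt_sqrt ht.le
    have e4 : {x | Real.sqrt (f x) ≤ t} = {x | f x ≤ t ^ 2} := by
      ext x
      exact Real.sqrt_le_left ht.le
    refine ⟨fun y => u y ^ (1 / 2 : ℝ), fun y => v y ^ (1 / 2 : ℝ), hu.pow_const _, hv.pow_const _,
      ?_, ?_, ?_⟩
    · filter_upwards [huv] with y hy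
      have h3 : ENNReal.ofReal (Real.sqrt (F y)) = ENNReal.ofReal (F y) ^ (1 / 2 : ℝ) := by
        rw [ENNReal.ofReal_rpow_of_nonneg (hF0 y) (by norm_num), Real.sqrt_eq_rpow]
      rw [h3]
      exact (ENNReal.rpow_le_rpow hy (by norm_num)).trans
        (ENNReal.rpow_add_le_add_rpow _ _ (by norm_num) (by norm_num))
    · have h4 : ∀ y, (u y ^ (1 / 2 : ℝ)) ^ 2 = u y := by
        intro y
        rw [← ENNReal.rpow_two, ← ENNReal.rpow_mul]; norm_num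
      simp_rw [h4, e3]
      simp_rw [e2 _ (hf0 _)]
      exact h1
    · have h5 : ∀ y, (v y ^ (1 / 2 : ℝ)) ^ 4 = v y ^ 2 := by
        intro y
        rw [← ENNReal.rpow_natCast, ← ENNReal.rpow_mul]; norm_num
      simp_rw [h5, e4]
      have h6 : ∀ x, ENNReal.ofReal (Real.sqrt (f x)) ^ 4 = ENNReal.ofReal (f x) ^ 2 := by
        intro x
        rw [show (4 : ℕ) = 2 * 2 by norm_num, pow_mul, e2 _ (hf0 x)]
      simp_rw [h6]
      exact h2

end Pool.Agent.W773.BRA
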