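import Pool.Agent.W773.BRA.F
import Pool.Agent.W773.BRA.M
import Pool.Agent.H438R2.RZ.M2
set_option autoImplicit false

/-! Averages over the radius: the bounds for one annular multiplier. -/

namespace Pool.Agent.W773.BRA

open Set Filter MeasureTheory SchwartzMap Metric
open scoped Topology ContDiff FourierTransform ENNReal RealInnerProductSpace

variable {n : ℕ}

/-- `μ` is at most `β`-dimensional on `[a, 2a]` (scale invariant normalisation) -/
def Dim (β a : ℝ) (μ : Measure ℝ) : Prop :=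
  ∀ s t : ℝ, a ≤ s → s ≤ t → t ≤ 2 * a → μ (Icc s t) ≤ ENNReal.ofReal (((t - s) / a) ^ β)

lemma Dim.univ {β a : ℝ} {μ : Measure ℝ} (h : Dim β a μ) (ha : 0 < a) : μ (Icc a (2 * a)) ≤ 1 := by
  have := h a (2 * a) le_rfl (by linarith) le_rfl
  rwa [show (2 * a - a) / a = 1 by field_simp; ring, Real.one_rpow, ENNReal.ofReal_one] at this

lemma Dim.finite {β a : ℝ} {μ : Measure ℝ} (h : Dim β a μ) (ha : 0 < a) :
    IsFiniteMeasure (μ.restrict (Icc a (2 * a))) :=
  ⟨by rw [Measure.restrict_apply_univ]; exact (h.univ ha).trans_lt ENNReal.one_lt_top⟩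

lemma radii {β a : ℝ} {μ : Measure ℝ} (h : Dim β a μ) (ha : 0 < a) (hβ : 0 ≤ β) {N : ℝ}
    (hN : 0 < N) (ξ : E n) :
    μ {R | R ∈ Icc a (2 * a) ∧ 1 / 2 ≤ N * (1 - ‖ξ‖ ^ 2 / R ^ 2) ∧
      N * (1 - ‖ξ‖ ^ 2 / R ^ 2) ≤ 2} ≤ ENNReal.ofReal ((4 / N) ^ β) := by
  set S := {R : ℝ | R ∈ Icc a (2 * a) ∧ 1 / 2 ≤ N * (1 - ‖ξ‖ ^ 2 / R ^ 2) ∧
      N * (1 - ‖ξ‖ ^ 2 / R ^ 2) ≤ 2} with hS
  rcases S.eq_empty_or_nonempty with he | hne
  · rw [he, measure_empty]; exact zero_le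
  have hbb : BddBelow S := ⟨a, fun R hR => hR.1.1⟩
  have hba : BddAbove S := ⟨2 * a, fun R hR => hR.1.2⟩
  have hd : ∀ R ∈ S, ∀ R' ∈ S, R - R' ≤ 4 * a / N := by
    rintro R ⟨⟨h1, h2⟩, h3, h4⟩ R' ⟨⟨h1', h2'⟩, h3', h4'⟩
    have hR : 0 < R := by linarith
    have hR' : 0 < R' := by linarith
    have a1 : R ^ 2 * (1 - 2 / N) ≤ ‖ξ‖ ^ 2 := by
      have : 1 - ‖ξ‖ ^ 2 / R ^ 2 ≤ 2 / N := by rw [le_div_iff₀ hN]; linarith
      have b1 : 1 - 2 / N ≤ ‖ξ‖ ^ 2 / R ^ 2 := by linarith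
      calc R ^ 2 * (1 - 2 / N) ≤ R ^ 2 * (‖ξ‖ ^ 2 / R ^ 2) := by gcongr
        _ = ‖ξ‖ ^ 2 := by field_simp
    have a2 : ‖ξ‖ ^ 2 ≤ R' ^ 2 := by
      have : 0 < 1 - ‖ξ‖ ^ 2 / R' ^ 2 := by
        by_contra hcon
        rw [not_lt] at hcon
        nlinarith
      have b1 : ‖ξ‖ ^ 2 / R' ^ 2 < 1 := by linarith
      rw [div_lt_one (by positivity)] at b1
      exact b1.le
    have a3 : R ^ 2 - R' ^ 2 ≤ R ^ 2 * (2 / N) := by nlinarith
    have a4 : R ^ 2 * (2 / N) ≤ (2 * a) ^ 2 * (2 / N) := by gcongr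
    by_contra hcon
    rw [not_le] at hcon
    have a5 : 0 < 4 * a / N := by positivity
    have a6 : 4 * a / N * (2 * a) < (R - R') * (R + R') :=
      mul_lt_mul hcon (by linarith) (by positivity) (by linarith)
    have a7 : 4 * a / N * (2 * a) = (2 * a) ^ 2 * (2 / N) := by ring
    nlinarith
  have hss : sSup S - sInf S ≤ 4 * a / N := by
    have h1 : sSup S ≤ sInf S + 4 * a / N := by
      apply csSup_le hne
      intro R hR
      have : R - 4 * a / N ≤ sInf S := le_csInf hne fun R' hR' => by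
        have := hd R hR R' hR'
        linarith
      linarith
    linarith
  obtain ⟨R0, hR0⟩ := hne
  have hle : sInf S ≤ sSup S := (csInf_le hbb hR0).trans (le_csSup hba hR0)
  have hsub : S ⊆ Icc (sInf S) (sSup S) := fun R hR => ⟨csInf_le hbb hR, le_csSup hba hR⟩
  refine (measure_mono hsub).trans ((h _ _ (le_csInf ⟨R0, hR0⟩ fun R hR => hR.1.1) hle
    (csSup_le ⟨R0, hR0⟩ fun R hR => hR.1.2)).trans ?_)
  apply ENNReal.ofReal_le_ofReal
  apply Real.rpow_le_rpow (div_nonneg (by linarith) ha.le) _ hβ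
  rw [div_le_iff₀ ha]
  calc sSup S - sInf S ≤ 4 * a / N := hss
    _ = 4 / N * a := by ring

lemma avg_L2 {β a : ℝ} {μ : Measure ℝ} (hd : Dim β a μ) (ha : 0 < a) (hβ : 0 ≤ β) {N : ℝ}
    (hN : 0 < N) {h : ℝ → ℝ} (hh : Bmp h) {M : ℝ} (hM : ∀ u, |h u| ≤ M) {g : E n → ℂ}
    (hg : Integrable g) (hg2 : MemLp g 2) :
    ∫⁻ z, ‖T h N z.1 g z.2‖ₑ ^ 2 ∂((μ.restrict (Icc a (2 * a))).prod (volume : Measure (E n))) ≤
      ENNReal.ofReal (M ^ 2 * (4 / N) ^ β) * ∫⁻ x, ‖g x‖ₑ ^ 2 := by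
  have hfin := hd.finite ha
  have hM0 : 0 ≤ M := (abs_nonneg _).trans (hM 0)
  set ν := μ.restrict (Icc a (2 * a)) with hν
  have hmT := (T_meas hh N hg).enorm.pow_const 2
  have hmp : Measurable (fun w : ℝ × E n => ‖prof h N w.1 w.2‖ₑ ^ 2 * ‖𝓕 g w.2‖ₑ ^ 2) := by
    have a2 : Measurable (fun w : ℝ × E n => prof h N w.1 w.2) := by
      unfold prof
      apply Complex.measurable_ofReal.comp
      apply hh.1.continuous.measurable.comp
      fun_prop
    exact (a2.enorm.pow_const 2).mul (((cont_F hg).measurable.comp measurable_snd).enorm.pow_const 2)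
  calc ∫⁻ z, ‖T h N z.1 g z.2‖ₑ ^ 2 ∂(ν.prod (volume : Measure (E n)))
      = ∫⁻ R, ∫⁻ x : E n, ‖T h N R g x‖ₑ ^ 2 ∂volume ∂ν := lintegral_prod _ hmT.aemeasurable
    _ = ∫⁻ R, ∫⁻ ξ : E n, ‖prof h N R ξ‖ₑ ^ 2 * ‖𝓕 g ξ‖ₑ ^ 2 ∂volume ∂ν := by
        apply lintegral_congr_ae
        rw [hν]
        filter_upwards [ae_restrict_mem measurableSet_Icc] with R hR
        exact T_L2 hh hN (by linarith [hR.1]) hg
    _ = ∫⁻ ξ : E n, ∫⁻ R, ‖prof h N R ξ‖ₑ ^ 2 * ‖𝓕 g ξ‖ₑ ^ 2 ∂ν ∂volume :=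
        lintegral_lintegral_swap hmp.aemeasurable
    _ ≤ ∫⁻ ξ : E n, ENNReal.ofReal (M ^ 2 * (4 / N) ^ β) * ‖𝓕 g ξ‖ₑ ^ 2 := by
        apply lintegral_mono
        intro ξ
        have a2 : Measurable (fun R : ℝ => ‖prof h N R ξ‖ₑ ^ 2) := by
          refine Measurable.pow_const (Measurable.enorm ?_) 2
          unfold prof
          apply Complex.measurable_ofReal.comp
          apply hh.1.continuous.measurable.comp
          fun_prop
        simp only
        rw [lintegral_mul_const _ a2]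
        gcongr
        set S := {R : ℝ | R ∈ Icc a (2 * a) ∧ 1 / 2 ≤ N * (1 - ‖ξ‖ ^ 2 / R ^ 2) ∧
          N * (1 - ‖ξ‖ ^ 2 / R ^ 2) ≤ 2} with hS
        have hSm : MeasurableSet S := by
          have hu : Measurable (fun R : ℝ => N * (1 - ‖ξ‖ ^ 2 / R ^ 2)) := by fun_prop
          exact measurableSet_Icc.inter
            ((measurableSet_le measurable_const hu).inter (measurableSet_le hu measurable_const))
        calc ∫⁻ R, ‖prof h N R ξ‖ₑ ^ 2 ∂ν
            ≤ ∫⁻ R, S.indicator (fun _ => ENNReal.ofReal (M ^ 2)) R ∂ν := by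
              apply lintegral_mono_ae
              rw [hν]
              filter_upwards [ae_restrict_mem measurableSet_Icc] with R hR
              by_cases hRS : R ∈ S
              · rw [indicator_of_mem hRS, ENNReal.ofReal_pow hM0]
                gcongr
                rw [← ofReal_norm]
                apply ENNReal.ofReal_le_ofReal
                unfold prof
                rw [Complex.norm_real, Real.norm_eq_abs]
                exact hM _
              · rw [indicator_of_notMem hRS]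
                have : prof h N R ξ = 0 := by
                  by_contra hcon
                  exact hRS ⟨hR, prof_ne hh hcon⟩
                rw [this]
                simp
          _ = ENNReal.ofReal (M ^ 2) * ν S := by
              rw [lintegral_indicator hSm, setLIntegral_const]
          _ ≤ ENNReal.ofReal (M ^ 2) * ENNReal.ofReal ((4 / N) ^ β) := by
              gcongr
              exact (Measure.restrict_apply_le _ _).trans (radii hd ha hβ hN ξ)
          _ = _ := by rw [ENNReal.ofReal_mul (by positivity)]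
    _ = ENNReal.ofReal (M ^ 2 * (4 / N) ^ β) * ∫⁻ ξ : E n, ‖𝓕 g ξ‖ₑ ^ 2 :=
        lintegral_const_mul _ ((cont_F hg).measurable.enorm.pow_const 2)
    _ = _ := by rw [Pool.Agent.H153R4.plancherel g hg hg2]

lemma avg_L1 {β a : ℝ} {μ : Measure ℝ} (hd : Dim β a μ) (ha : 0 < a) {N : ℝ}
    (hN : 0 < N) {h : ℝ → ℝ} (hh : Bmp h) {g : E n → ℂ} (hg : Integrable g) (hgm : Measurable g)
    {B : ℝ≥0∞} (hB : ∀ R, 0 < R → KN n h N R ≤ B) :
    ∫⁻ z, ‖T h N z.1 g z.2‖ₑ ∂((μ.restrict (Icc a (2 * a))).prod (volume : Measure (E n))) ≤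
      B * ∫⁻ x, ‖g x‖ₑ := by
  have hfin := hd.finite ha
  rw [lintegral_prod _ (T_meas hh N hg).enorm.aemeasurable]
  calc ∫⁻ R, ∫⁻ x : E n, ‖T h N R g x‖ₑ ∂volume ∂(μ.restrict (Icc a (2 * a)))
      ≤ ∫⁻ _ : ℝ, (B * ∫⁻ x, ‖g x‖ₑ) ∂(μ.restrict (Icc a (2 * a))) := by
        apply lintegral_mono_ae
        filter_upwards [ae_restrict_mem measurableSet_Icc] with R hR
        have hR0 : 0 < R := by linarith [hR.1]
        exact (T_L1 hh hN hR0 hg hgm).trans (by gcongr; exact hB R hR0)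
    _ = (B * ∫⁻ x, ‖g x‖ₑ) * μ (Icc a (2 * a)) := by
        rw [lintegral_const, Measure.restrict_apply_univ]
    _ ≤ (B * ∫⁻ x, ‖g x‖ₑ) * 1 := by gcongr; exact hd.univ ha
    _ = _ := mul_one _

end Pool.Agent.W773.BRA
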