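import Pool.Agent.W773.BRA.G
set_option autoImplicit false

/-! Averages over the radius: `L^p` bounds for one annular multiplier. -/

namespace Pool.Agent.W773.BRA

open Set Filter MeasureTheory SchwartzMap Metric
open scoped Topology ContDiff FourierTransform ENNReal RealInnerProductSpace

variable {n : ℕ}

/-- the exponent of growth (times `p`) -/
noncomputable def Ex (n : ℕ) (β p : ℝ) : ℝ := ((n : ℝ) - 1) * |p - 2| / 2 - β * min 1 (p - 1)

lemma KN_eq {h : ℝ → ℝ} (hh : Bmp h) {N R : ℝ} (hN : 0 < N) (hR : 0 < R) :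
    KN n h N R = ∫⁻ x : E n, ‖𝓕 (Sp (n := n) hh hN hR) x‖ₑ := by
  unfold KN
  rw [SchwartzMap.fourier_coe]
  rfl

section split

variable (f : 𝓢(E n, ℂ)) (t : ℝ)

/-- large part -/
noncomputable def gl : E n → ℂ := {x | t < ‖f x‖}.indicator f

/-- small part -/
noncomputable def gs : E n → ℂ := {x | t < ‖f x‖}ᶜ.indicator f

lemma S_meas : MeasurableSet {x : E n | t < ‖f x‖} :=
  measurableSet_lt measurable_const f.continuous.norm.measurable

lemma gl_int : Integrable (gl f t) := f.integrable.indicator (S_meas f t)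

lemma gs_int : Integrable (gs f t) := f.integrable.indicator (S_meas f t).compl

lemma gl_L2 : MemLp (gl f t) 2 := (f.memLp 2).indicator (S_meas f t)

lemma gs_L2 : MemLp (gs f t) 2 := (f.memLp 2).indicator (S_meas f t).compl

lemma gl_meas : Measurable (gl f t) := f.continuous.measurable.indicator (S_meas f t)

lemma gs_meas : Measurable (gs f t) := f.continuous.measurable.indicator (S_meas f t).compl

lemma split_eq : (fun y => gl f t y + gs f t y) = f := by
  funext y
  exact indicator_self_add_compl_apply _ _ _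

lemma gs_le (_ : 0 ≤ t) (y : E n) : ‖gs f t y‖ₑ ≤ ENNReal.ofReal t := by
  unfold gs
  by_cases hy : y ∈ {x : E n | t < ‖f x‖}ᶜ
  · rw [indicator_of_mem hy, ← ofReal_norm]
    apply ENNReal.ofReal_le_ofReal
    simpa using hy
  · rw [indicator_of_notMem hy]
    simp

lemma gl_lint (k : ℕ) (hk : k ≠ 0) : ∫⁻ x, ‖gl f t x‖ₑ ^ k =
    ∫⁻ x in {x | t < ‖f x‖}, ENNReal.ofReal ‖f x‖ ^ k := by
  rw [← lintegral_indicator (S_meas f t)]
  apply lintegral_congr
  intro x
  unfold gl
  by_cases hx : x ∈ {x : E n | t < ‖f x‖}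
  · rw [indicator_of_mem hx, indicator_of_mem hx, ofReal_norm]
  · rw [indicator_of_notMem hx, indicator_of_notMem hx]
    simp [hk]

lemma gs_lint (k : ℕ) (hk : k ≠ 0) : ∫⁻ x, ‖gs f t x‖ₑ ^ k =
    ∫⁻ x in {x | ‖f x‖ ≤ t}, ENNReal.ofReal ‖f x‖ ^ k := by
  have e : {x : E n | ‖f x‖ ≤ t} = {x | t < ‖f x‖}ᶜ := by
    ext x; simp
  rw [e, ← lintegral_indicator (S_meas f t).compl]
  apply lintegral_congr
  intro x
  unfold gs
  by_cases hx : x ∈ {x : E n | t < ‖f x‖}ᶜ
  · rw [indicator_of_mem hx, indicator_of_mem hx, ofReal_norm]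
  · rw [indicator_of_notMem hx, indicator_of_notMem hx]
    simp [hk]

end split

theorem piece (hn : 2 ≤ n) {p β : ℝ} (hp : 1 < p) (hβ : 0 ≤ β) {h : ℝ → ℝ} (hh : Bmp h) :
    ∃ A : ℝ, 0 < A ∧ ∀ N : ℝ, 1 ≤ N → ∀ a : ℝ, 0 < a → ∀ μ : Measure ℝ, Dim β a μ →
    ∀ f : 𝓢(E n, ℂ),
    ∫⁻ z, ENNReal.ofReal ‖T h N z.1 f z.2‖ ^ p
        ∂((μ.restrict (Icc a (2 * a))).prod (volume : Measure (E n))) ≤
      ENNReal.ofReal (A * N ^ Ex n β p) * ∫⁻ x, ENNReal.ofReal ‖f x‖ ^ p := by
  obtain ⟨CK, hCK, hK⟩ := kernel_L1 hn hh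
  obtain ⟨M, hM0, hM⟩ : ∃ M : ℝ, 0 < M ∧ ∀ u, |h u| ≤ M := by
    obtain ⟨C, hC, hb⟩ := (HH_JB (n := n) hh 0).bound
    exact ⟨C, hC, fun u => hb 0 ⟨le_rfl, zero_le_one⟩ u⟩
  have hKN : ∀ N R : ℝ, 1 ≤ N → 0 < R → KN n h N R ≤ ENNReal.ofReal (CK * N ^ (((n : ℝ) - 1) / 2)) := by
    intro N R hN hR
    rw [KN_eq hh (by linarith) hR]
    exact hK N R hN (by linarith) hR
  have hadd : ∀ N : ℝ, 0 < N → ∀ a : ℝ, 0 < a → ∀ μ : Measure ℝ, ∀ f : 𝓢(E n, ℂ), ∀ t : ℝ,
      ∀ᵐ z ∂((μ.restrict (Icc a (2 * a))).prod (volume : Measure (E n))),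
        T h N z.1 f z.2 = T h N z.1 (gl f t) z.2 + T h N z.1 (gs f t) z.2 := by
    intro N hN a ha μ f t
    have h1 : ∀ᵐ z ∂((μ.restrict (Icc a (2 * a))).prod (volume : Measure (E n))),
        z.1 ∈ Icc a (2 * a) := by
      have := Measure.quasiMeasurePreserving_fst (μ := μ.restrict (Icc a (2 * a)))
        (ν := (volume : Measure (E n)))
      exact this.ae (ae_restrict_mem measurableSet_Icc)
    filter_upwards [h1] with z hz
    have hR : 0 < z.1 := by linarith [hz.1]
    have := T_add hh hN hR (gl_int f t) (gs_int f t) z.2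
    rw [split_eq] at this
    exact this
  have hle : ∀ N : ℝ, 0 < N → ∀ a : ℝ, 0 < a → ∀ μ : Measure ℝ, ∀ f : 𝓢(E n, ℂ), ∀ t : ℝ,
      ∀ᵐ z ∂((μ.restrict (Icc a (2 * a))).prod (volume : Measure (E n))),
        ENNReal.ofReal ‖T h N z.1 f z.2‖ ≤
          ‖T h N z.1 (gl f t) z.2‖ₑ + ‖T h N z.1 (gs f t) z.2‖ₑ := by
    intro N hN a ha μ f t
    filter_upwards [hadd N hN a ha μ f t] with z hz
    rw [ofReal_norm, hz]
    exact enorm_add_le _ _
  rcases lt_trichotomy p 2 with hp2 | hp2 | hp2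
  · -- p < 2
    obtain ⟨C, hC, H⟩ := marc12 p hp hp2
    refine ⟨C * CK ^ (2 - p) * (M ^ 2 * 4 ^ β) ^ (p - 1), by positivity, ?_⟩
    intro N hN a ha μ hμ f
    have hN0 : 0 < N := by linarith
    have hfin := hμ.finite ha
    have key := H (volume : Measure (E n)) ((μ.restrict (Icc a (2 * a))).prod (volume : Measure (E n)))
      (fun z => ‖T h N z.1 f z.2‖) (fun x => ‖f x‖) (T_meas hh N f.integrable).norm
      f.continuous.norm.measurable (fun z => norm_nonneg _) (fun x => norm_nonneg _)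
      (CK * N ^ (((n : ℝ) - 1) / 2)) (M ^ 2 * (4 / N) ^ β) (by positivity) (by positivity) ?_
    · refine key.trans (le_of_eq ?_)
      congr 2
      unfold Ex
      rw [abs_of_neg (by linarith), min_eq_right (by linarith)]
      rw [Real.mul_rpow (by positivity) (by positivity), ← Real.rpow_mul hN0.le,
        Real.div_rpow (by norm_num) hN0.le, ← mul_div_assoc, Real.div_rpow (by positivity)
        (by positivity), ← Real.rpow_mul hN0.le]
      rw [show ((n : ℝ) - 1) * -(p - 2) / 2 - β * (p - 1) =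
        ((n : ℝ) - 1) / 2 * (2 - p) - β * (p - 1) by ring, Real.rpow_sub hN0]
      ring
    · intro t ht
      refine ⟨fun z => ‖T h N z.1 (gl f t) z.2‖ₑ, fun z => ‖T h N z.1 (gs f t) z.2‖ₑ,
        (T_meas hh N (gl_int f t)).enorm, (T_meas hh N (gs_int f t)).enorm,
        hle N hN0 a ha μ f t, ?_, ?_⟩
      · have h1 := avg_L1 hμ ha hN0 hh (gl_int f t) (gl_meas f t) (fun R hR => hKN N R hN hR)
        have h2 := gl_lint f t 1 one_ne_zero
        simp only [pow_one] at h2
        rw [← h2]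
        exact h1
      · have h1 := avg_L2 hμ ha hβ hN0 hh hM (gs_int f t) (gs_L2 f t)
        rw [← gs_lint f t 2 two_ne_zero]
        exact h1
  · -- p = 2
    refine ⟨M ^ 2 * 4 ^ β, by positivity, ?_⟩
    intro N hN a ha μ hμ f
    have hN0 : 0 < N := by linarith
    subst hp2
    have h1 := avg_L2 hμ ha hβ hN0 hh hM f.integrable (f.memLp 2)
    simp_rw [ofReal_norm, ENNReal.rpow_two]
    refine h1.trans (le_of_eq ?_)
    congr 2
    unfold Ex
    rw [sub_self, abs_zero, mul_zero, zero_div, zero_sub, min_eq_left (by norm_num), mul_one,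
      Real.div_rpow (by norm_num) hN0.le, Real.rpow_neg hN0.le]
    ring
  · -- p > 2
    obtain ⟨C, hC, H⟩ := Pool.Agent.H438R2.RZ.marcInf 2 p (by norm_num) hp2
    refine ⟨C * (M ^ 2 * 4 ^ β) * CK ^ (p - 2), by positivity, ?_⟩
    intro N hN a ha μ hμ f
    have hN0 : 0 < N := by linarith
    have hfin := hμ.finite ha
    have key := H (volume : Measure (E n)) ((μ.restrict (Icc a (2 * a))).prod (volume : Measure (E n)))
      (fun z => ‖T h N z.1 f z.2‖) (fun x => ‖f x‖) (T_meas hh N f.integrable).norm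
      f.continuous.norm.measurable (fun z => norm_nonneg _) (fun x => norm_nonneg _)
      (M ^ 2 * (4 / N) ^ β) (CK * N ^ (((n : ℝ) - 1) / 2)) (by positivity) (by positivity) ?_
    · refine key.trans (le_of_eq ?_)
      congr 2
      unfold Ex
      rw [abs_of_pos (by linarith), min_eq_left (by linarith)]
      rw [Real.mul_rpow (by positivity) (by positivity), ← Real.rpow_mul hN0.le,
        Real.div_rpow (by norm_num) hN0.le]
      rw [show ((n : ℝ) - 1) * (p - 2) / 2 - β * 1 =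
        ((n : ℝ) - 1) / 2 * (p - 2) - β by ring, Real.rpow_sub hN0]
      ring
    · intro t ht
      refine ⟨fun z => ‖T h N z.1 (gl f t) z.2‖ₑ, fun z => ‖T h N z.1 (gs f t) z.2‖ₑ,
        (T_meas hh N (gl_int f t)).enorm, (T_meas hh N (gs_int f t)).enorm,
        hle N hN0 a ha μ f t, ?_, ?_⟩
      · have h1 := avg_L2 hμ ha hβ hN0 hh hM (gl_int f t) (gl_L2 f t)
        simp_rw [ENNReal.rpow_two]
        rw [← gl_lint f t 2 two_ne_zero]
        exact h1
      · have h1 : ∀ᵐ z ∂((μ.restrict (Icc a (2 * a))).prod (volume : Measure (E n))),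
            z.1 ∈ Icc a (2 * a) := by
          have := Measure.quasiMeasurePreserving_fst (μ := μ.restrict (Icc a (2 * a)))
            (ν := (volume : Measure (E n)))
          exact this.ae (ae_restrict_mem measurableSet_Icc)
        filter_upwards [h1] with z hz
        have hR : 0 < z.1 := by linarith [hz.1]
        refine (T_sup hh hN0 hR (gs_int f t) (gs_le f t ht.le) z.2).trans ?_
        rw [ENNReal.ofReal_mul (by positivity)]
        gcongr
        exact hKN N z.1 hN hR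

end Pool.Agent.W773.BRA
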