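import Pool.Agent.W773.BRA.P
set_option autoImplicit false

/-! Summation of the dyadic pieces. -/

namespace Pool.Agent.W773.BRA

open Set Filter MeasureTheory SchwartzMap Metric
open scoped Topology ContDiff FourierTransform ENNReal RealInnerProductSpace

variable {n : ℕ}

/-- Bochner-Riesz operator of order `δ` and radius `R` -/
noncomputable def S (δ R : ℝ) (f : E n → ℂ) (x : E n) : ℂ :=
  𝓕⁻ (fun ξ : E n => (((max (1 - ‖ξ‖ ^ 2 / R ^ 2) 0) ^ δ : ℝ) : ℂ) * 𝓕 f ξ) x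

/-- partial sums -/
noncomputable def SK (δ : ℝ) (K : ℕ) (f : E n → ℂ) (z : ℝ × E n) : ℂ :=
  ∑ k ∈ Finset.range K, (((2 : ℝ) ^ (-(k : ℝ) * δ) : ℝ) : ℂ) * T (psi δ) (2 ^ k) z.1 f z.2

lemma ch_cont (x : E n) : Continuous (fun ξ : E n => (Real.fourierChar ⟪ξ, x⟫ : ℂ)) :=
  continuous_subtype_val.comp (Real.continuous_fourierChar.comp (by fun_prop))

lemma ch_norm (r : ℝ) : ‖(Real.fourierChar r : ℂ)‖ ≤ 1 := (Circle.norm_coe _).le

lemma SK_lim {δ : ℝ} (hδ : 0 < δ) (f : 𝓢(E n, ℂ)) {R : ℝ} (hR : 0 < R) (x : E n) :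
    Tendsto (fun K : ℕ => SK δ K f (R, x)) atTop (𝓝 (S δ R f x)) := by
  have hF : Integrable (𝓕 (f : E n → ℂ)) := by
    have := (𝓕 f).integrable (μ := (volume : Measure (E n)))
    rwa [SchwartzMap.fourier_coe] at this
  set m : E n → ℝ := fun ξ => (max (1 - ‖ξ‖ ^ 2 / R ^ 2) 0) ^ δ with hm
  have hle1 : ∀ ξ : E n, 1 - ‖ξ‖ ^ 2 / R ^ 2 ≤ 1 := fun ξ => by
    have : 0 ≤ ‖ξ‖ ^ 2 / R ^ 2 := by positivity
    linarith
  have hm0 : ∀ ξ, 0 ≤ m ξ := fun ξ => Real.rpow_nonneg (le_max_right _ _) _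
  have hm1 : ∀ ξ, m ξ ≤ 1 := fun ξ => Real.rpow_le_one (le_max_right _ _)
    (max_le (hle1 ξ) zero_le_one) hδ.le
  have hmc : Continuous m := by
    rw [hm]
    apply Continuous.rpow_const (by fun_prop)
    intro ξ
    right; exact hδ.le
  have hSint : Integrable (fun ξ : E n => ((m ξ : ℝ) : ℂ) * 𝓕 (f : E n → ℂ) ξ) := by
    apply hF.bdd_mul (c := 1) (Complex.continuous_ofReal.comp hmc).aestronglyMeasurable
    filter_upwards with ξ
    rw [Function.comp_apply, Complex.norm_real, Real.norm_eq_abs, abs_of_nonneg (hm0 ξ)]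
    exact hm1 ξ
  have hTint : ∀ k : ℕ, Integrable (fun ξ : E n =>
      prof (psi δ) (2 ^ k) R ξ * 𝓕 (f : E n → ℂ) ξ) := fun k =>
    prodF_int (psi_bmp δ) (by positivity) hR f.integrable
  have e1 : ∀ K : ℕ, SK δ K f (R, x) = ∫ ξ : E n, (Real.fourierChar ⟪ξ, x⟫ : ℂ) *
      ((((∑ k ∈ Finset.range K, (2 : ℝ) ^ (-(k : ℝ) * δ) * psi δ (2 ^ k * (1 - ‖ξ‖ ^ 2 / R ^ 2)) : ℝ)) : ℂ)
        * 𝓕 (f : E n → ℂ) ξ) := by
    intro K
    unfold SK T
    have hb : ∀ k : ℕ, Integrable (fun ξ : E n => (((2 : ℝ) ^ (-(k : ℝ) * δ) : ℝ) : ℂ) *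
        ((Real.fourierChar ⟪ξ, x⟫ : ℂ) * (prof (psi δ) (2 ^ k) R ξ * 𝓕 (f : E n → ℂ) ξ))) := by
      intro k
      apply Integrable.const_mul
      apply (hTint k).bdd_mul (c := 1)
      · exact (ch_cont x).aestronglyMeasurable
      · exact Eventually.of_forall fun ξ => ch_norm _
    have h2 : ∀ k : ℕ, (((2 : ℝ) ^ (-(k : ℝ) * δ) : ℝ) : ℂ) *
        𝓕⁻ (fun ξ : E n => prof (psi δ) (2 ^ k) (R, x).1 ξ * 𝓕 (f : E n → ℂ) ξ) (R, x).2 =
        ∫ ξ : E n, (((2 : ℝ) ^ (-(k : ℝ) * δ) : ℝ) : ℂ) *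
        ((Real.fourierChar ⟪ξ, x⟫ : ℂ) * (prof (psi δ) (2 ^ k) R ξ * 𝓕 (f : E n → ℂ) ξ)) := by
      intro k
      rw [integral_const_mul, Real.fourierInv_eq]
      rfl
    simp_rw [h2]
    rw [← integral_finsetSum _ fun k _ => hb k]
    apply integral_congr_ae
    filter_upwards with ξ
    unfold prof
    rw [Complex.ofReal_sum, Finset.sum_mul, Finset.mul_sum]
    apply Finset.sum_congr rfl
    intro k _
    push_cast
    ring
  have e2 : S δ R f x = ∫ ξ : E n, (Real.fourierChar ⟪ξ, x⟫ : ℂ) *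
      (((m ξ : ℝ) : ℂ) * 𝓕 (f : E n → ℂ) ξ) := by
    unfold S
    rw [Real.fourierInv_eq]
    rfl
  rw [e2]
  simp_rw [e1]
  rw [tendsto_iff_norm_sub_tendsto_zero]
  have hgeo : Tendsto (fun K : ℕ => ((2 * (1 / 2 : ℝ) ^ K) ^ δ) * ∫ ξ : E n, ‖𝓕 (f : E n → ℂ) ξ‖)
      atTop (𝓝 0) := by
    have h1 : Tendsto (fun K : ℕ => 2 * (1 / 2 : ℝ) ^ K) atTop (𝓝 0) := by
      have := (tendsto_pow_atTop_nhds_zero_of_lt_one (r := (1 / 2 : ℝ)) (by norm_num)
        (by norm_num)).const_mul 2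
      simpa using this
    have h2 : Tendsto (fun K : ℕ => (2 * (1 / 2 : ℝ) ^ K) ^ δ) atTop (𝓝 0) := by
      have := h1.rpow_const (p := δ) (Or.inr hδ.le)
      rwa [Real.zero_rpow hδ.ne'] at this
    simpa using h2.mul_const _
  refine squeeze_zero (fun K => norm_nonneg _) (fun K => ?_) hgeo
  have hint1 : Integrable (fun ξ : E n => (Real.fourierChar ⟪ξ, x⟫ : ℂ) *
      ((((∑ k ∈ Finset.range K, (2 : ℝ) ^ (-(k : ℝ) * δ) * psi δ (2 ^ k * (1 - ‖ξ‖ ^ 2 / R ^ 2)) : ℝ)) : ℂ)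
        * 𝓕 (f : E n → ℂ) ξ)) := by
    apply Integrable.bdd_mul (c := 1)
    · apply hF.bdd_mul (c := 1 + (2 * (1 / 2 : ℝ) ^ K) ^ δ)
      · apply Continuous.aestronglyMeasurable
        apply Complex.continuous_ofReal.comp
        apply continuous_finsetSum
        intro k _
        exact continuous_const.mul ((psi_contDiff δ).continuous.comp (by fun_prop))
      · filter_upwards with ξ
        rw [Complex.norm_real, Real.norm_eq_abs]
        have h3 := sum_psi_tail hδ (hle1 ξ) K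
        have h4 : |(max (1 - ‖ξ‖ ^ 2 / R ^ 2) 0) ^ δ| ≤ 1 := by
          rw [abs_of_nonneg (hm0 ξ)]; exact hm1 ξ
        have h5 := abs_sub_abs_le_abs_sub (∑ k ∈ Finset.range K, (2 : ℝ) ^ (-(k : ℝ) * δ) *
          psi δ (2 ^ k * (1 - ‖ξ‖ ^ 2 / R ^ 2))) ((max (1 - ‖ξ‖ ^ 2 / R ^ 2) 0) ^ δ)
        rw [abs_sub_comm] at h5
        linarith
    · exact (ch_cont x).aestronglyMeasurable
    · exact Eventually.of_forall fun ξ => ch_norm _
  have hint2 : Integrable (fun ξ : E n => (Real.fourierChar ⟪ξ, x⟫ : ℂ) *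
      (((m ξ : ℝ) : ℂ) * 𝓕 (f : E n → ℂ) ξ)) := by
    apply hSint.bdd_mul (c := 1)
    · exact (ch_cont x).aestronglyMeasurable
    · exact Eventually.of_forall fun ξ => ch_norm _
  rw [← integral_sub hint1 hint2, ← integral_const_mul]
  apply norm_integral_le_of_norm_le (hF.norm.const_mul _)
  filter_upwards with ξ
  rw [← mul_sub, ← sub_mul, norm_mul, norm_mul, Circle.norm_coe, one_mul, ← Complex.ofReal_sub,
    Complex.norm_real, Real.norm_eq_abs, abs_sub_comm]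
  gcongr
  exact sum_psi_tail hδ (hle1 ξ) K

lemma Ex_lt {p β δ : ℝ} (hp : 1 < p)
    (h : ((n : ℝ) - 1) * |1 / 2 - 1 / p| - β * min (1 / p) (1 - 1 / p) < δ) :
    Ex n β p < p * δ := by
  have hp0 : 0 < p := by linarith
  have h1 : p * (((n : ℝ) - 1) * |1 / 2 - 1 / p| - β * min (1 / p) (1 - 1 / p)) = Ex n β p := by
    unfold Ex
    have e1 : p * |1 / 2 - 1 / p| = |p - 2| / 2 := by
      rw [← abs_of_pos hp0, ← abs_mul, abs_of_pos hp0]
      rw [show p * (1 / 2 - 1 / p) = (p - 2) / 2 by field_simp]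
      rw [abs_div, abs_of_pos (by norm_num : (0 : ℝ) < 2)]
    have e2 : p * min (1 / p) (1 - 1 / p) = min 1 (p - 1) := by
      rw [mul_min_of_nonneg _ _ hp0.le]
      congr 1
      · field_simp
      · field_simp
    calc p * (((n : ℝ) - 1) * |1 / 2 - 1 / p| - β * min (1 / p) (1 - 1 / p))
        = ((n : ℝ) - 1) * (p * |1 / 2 - 1 / p|) - β * (p * min (1 / p) (1 - 1 / p)) := by ring
      _ = _ := by rw [e1, e2]; ring
  rw [← h1]
  exact mul_lt_mul_of_pos_left h hp0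

theorem main (hn : 2 ≤ n) {p β δ : ℝ} (hp : 1 < p) (hβ : 0 ≤ β) (hδ : 0 < δ)
    (h : ((n : ℝ) - 1) * |1 / 2 - 1 / p| - β * min (1 / p) (1 - 1 / p) < δ) :
    ∃ C : ℝ, 0 < C ∧ ∀ a : ℝ, 0 < a → ∀ μ : Measure ℝ, Dim β a μ → ∀ f : 𝓢(E n, ℂ),
      eLpNorm (fun z : ℝ × E n => S δ z.1 f z.2) (ENNReal.ofReal p)
        ((μ.restrict (Icc a (2 * a))).prod (volume : Measure (E n))) ≤
      ENNReal.ofReal C * eLpNorm (f : E n → ℂ) (ENNReal.ofReal p) volume := by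
  have hp0 : 0 < p := by linarith
  obtain ⟨A, hA, hpc⟩ := piece (n := n) hn hp hβ (psi_bmp δ)
  have hEx := Ex_lt (n := n) hp h
  set q : ℝ := (2 : ℝ) ^ (Ex n β p / p - δ) with hq
  have hq0 : 0 < q := by positivity
  have hq1 : q < 1 := by
    apply Real.rpow_lt_one_of_one_lt_of_neg (by norm_num)
    rw [sub_neg, div_lt_iff₀ hp0]
    linarith
  refine ⟨A ^ (1 / p) * (1 - q)⁻¹, by
    have : 0 < 1 - q := by linarith
    positivity, fun a ha μ hμ f => ?_⟩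
  have hfin := hμ.finite ha
  set ν := (μ.restrict (Icc a (2 * a))).prod (volume : Measure (E n)) with hν
  have hpne : ENNReal.ofReal p ≠ 0 := by simpa using hp0
  have hptop : ENNReal.ofReal p ≠ ⊤ := ENNReal.ofReal_ne_top
  have hpr : (ENNReal.ofReal p).toReal = p := ENNReal.toReal_ofReal hp0.le
  have hTk : ∀ k : ℕ, eLpNorm (fun z : ℝ × E n => T (psi δ) (2 ^ k) z.1 f z.2) (ENNReal.ofReal p) ν ≤
      ENNReal.ofReal ((A * ((2 : ℝ) ^ k) ^ Ex n β p) ^ (1 / p)) *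
        eLpNorm (f : E n → ℂ) (ENNReal.ofReal p) volume := by
    intro k
    rw [eLpNorm_eq_lintegral_rpow_enorm_toReal hpne hptop,
      eLpNorm_eq_lintegral_rpow_enorm_toReal hpne hptop, hpr]
    have h1 := hpc (2 ^ k) (one_le_pow₀ (by norm_num)) a ha μ hμ f
    simp_rw [ofReal_norm] at h1
    rw [← ENNReal.ofReal_rpow_of_nonneg (by positivity) (by positivity),
      ← ENNReal.mul_rpow_of_nonneg _ _ (by positivity)]
    exact ENNReal.rpow_le_rpow h1 (by positivity)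
  have hmeas : ∀ k : ℕ, AEStronglyMeasurable (fun z : ℝ × E n => T (psi δ) (2 ^ k) z.1 f z.2) ν :=
    fun k => (T_meas (psi_bmp δ) (2 ^ k) f.integrable).aestronglyMeasurable
  have hmeas2 : ∀ k : ℕ, AEStronglyMeasurable (fun z : ℝ × E n =>
      (((2 : ℝ) ^ (-(k : ℝ) * δ) : ℝ) : ℂ) * T (psi δ) (2 ^ k) z.1 f z.2) ν :=
    fun k => (hmeas k).const_mul _
  have hSKm : ∀ K : ℕ, AEStronglyMeasurable (SK δ K f) ν := by
    intro K
    have : SK δ K f = ∑ k ∈ Finset.range K, fun z : ℝ × E n =>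
      (((2 : ℝ) ^ (-(k : ℝ) * δ) : ℝ) : ℂ) * T (psi δ) (2 ^ k) z.1 f z.2 := by
      funext z
      simp [SK]
    rw [this]
    exact Finset.aestronglyMeasurable_sum _ fun k _ => hmeas2 k
  have hSK : ∀ K : ℕ, eLpNorm (SK δ K f) (ENNReal.ofReal p) ν ≤
      ENNReal.ofReal (A ^ (1 / p) * (1 - q)⁻¹) * eLpNorm (f : E n → ℂ) (ENNReal.ofReal p) volume := by
    intro K
    have e0 : SK δ K f = ∑ k ∈ Finset.range K, fun z : ℝ × E n =>
      (((2 : ℝ) ^ (-(k : ℝ) * δ) : ℝ) : ℂ) * T (psi δ) (2 ^ k) z.1 f z.2 := by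
      funext z
      simp [SK]
    have hp1 : 1 ≤ ENNReal.ofReal p := by
      rw [← ENNReal.ofReal_one]; exact ENNReal.ofReal_le_ofReal hp.le
    rw [e0]
    refine (eLpNorm_sum_le (fun k _ => hmeas2 k) hp1).trans ?_
    have h2 : ∀ k ∈ Finset.range K, eLpNorm (fun z : ℝ × E n =>
        (((2 : ℝ) ^ (-(k : ℝ) * δ) : ℝ) : ℂ) * T (psi δ) (2 ^ k) z.1 f z.2) (ENNReal.ofReal p) ν ≤
        ENNReal.ofReal (A ^ (1 / p) * q ^ k) * eLpNorm (f : E n → ℂ) (ENNReal.ofReal p) volume := by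
      intro k _
      have h3 : eLpNorm (fun z : ℝ × E n =>
          (((2 : ℝ) ^ (-(k : ℝ) * δ) : ℝ) : ℂ) * T (psi δ) (2 ^ k) z.1 f z.2) (ENNReal.ofReal p) ν =
          ENNReal.ofReal ((2 : ℝ) ^ (-(k : ℝ) * δ)) *
            eLpNorm (fun z : ℝ × E n => T (psi δ) (2 ^ k) z.1 f z.2) (ENNReal.ofReal p) ν := by
        have := eLpNorm_const_smul (((2 : ℝ) ^ (-(k : ℝ) * δ) : ℝ) : ℂ)
          (fun z : ℝ × E n => T (psi δ) (2 ^ k) z.1 f z.2) (ENNReal.ofReal p) ν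
        rw [← ofReal_norm, Complex.norm_real, Real.norm_eq_abs, abs_of_pos (by positivity)] at this
        exact this
      rw [h3]
      refine (mul_le_mul_right (hTk k) _).trans ?_
      rw [← mul_assoc, ← ENNReal.ofReal_mul (by positivity)]
      apply le_of_eq
      congr 2
      rw [Real.mul_rpow hA.le (by positivity), ← Real.rpow_natCast (2 : ℝ) k, ← Real.rpow_mul
        (by norm_num), ← Real.rpow_mul (by norm_num), hq, ← Real.rpow_natCast, ← Real.rpow_mul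
        (by norm_num), ← mul_assoc, mul_comm ((2 : ℝ) ^ (-(k : ℝ) * δ)), mul_assoc,
        ← Real.rpow_add (by norm_num)]
      congr 2
      ring
    refine (Finset.sum_le_sum h2).trans ?_
    rw [← Finset.sum_mul]
    gcongr
    rw [← ENNReal.ofReal_sum_of_nonneg (fun k _ => by positivity)]
    apply ENNReal.ofReal_le_ofReal
    rw [← Finset.mul_sum]
    gcongr
    exact (Summable.sum_le_tsum _ (fun k _ => by positivity)
      (summable_geometric_of_lt_one hq0.le hq1)).trans (le_of_eq (tsum_geometric_of_lt_one hq0.le hq1))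
  have hlim : ∀ᵐ z ∂ν, Tendsto (fun K : ℕ => SK δ K f z) atTop (𝓝 (S δ z.1 f z.2)) := by
    have h1 : ∀ᵐ z ∂ν, z.1 ∈ Icc a (2 * a) := by
      have := Measure.quasiMeasurePreserving_fst (μ := μ.restrict (Icc a (2 * a)))
        (ν := (volume : Measure (E n)))
      exact this.ae (ae_restrict_mem measurableSet_Icc)
    filter_upwards [h1] with z hz
    exact SK_lim hδ f (by linarith [hz.1]) z.2
  refine (Lp.eLpNorm_lim_le_liminf_eLpNorm hSKm _ hlim).trans ?_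
  refine liminf_le_of_frequently_le' ?_
  exact Eventually.frequently (Eventually.of_forall hSK)

end Pool.Agent.W773.BRA
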